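import Pool.Agent.Q209.CO.Defs

/-!
# Families of independence dimension at most one
-/

set_option autoImplicit false

universe w

namespace Pool.Agent.Q209.CO

open Set

variable {X : Type w}

/-- Membership in `S` depends only on membership in the sets of the list. -/
def Respects (l : List (Set X)) (S : Set X) : Prop :=
  ∀ x y, (∀ B ∈ l, (x ∈ B ↔ y ∈ B)) → (x ∈ S ↔ y ∈ S)

theorem Respects.mono {l l' : List (Set X)} {S : Set X} (h : Respects l S) (hl : ∀ B ∈ l, B ∈ l') :
    Respects l' S := fun x y hxy => h x y fun B hB => hxy B (hl B hB)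

theorem BoolComb.respects {F : Set (Set X)} {S : Set X} (h : BoolComb F S) :
    ∃ l : List (Set X), (∀ B ∈ l, B ∈ F) ∧ Respects l S := by
  induction h with
  | @basic S hS => exact ⟨[S], by simpa using hS, fun x y hxy => hxy S (by simp)⟩
  | univ => exact ⟨[], by simp, fun x y _ => by simp⟩
  | @compl S _ ih =>
    obtain ⟨l, hl, hr⟩ := ih
    exact ⟨l, hl, fun x y hxy => not_congr (hr x y hxy)⟩
  | @inter S S' _ _ ih ih' =>
    obtain ⟨l, hl, hr⟩ := ih
    obtain ⟨l', hl', hr'⟩ := ih'
    refine ⟨l ++ l', ?_, ?_⟩
    · intro B hB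
      rcases List.mem_append.1 hB with h | h
      · exact hl B h
      · exact hl' B h
    · exact fun x y hxy => and_congr (hr x y fun B hB => hxy B (by simp [hB]))
        (hr' x y fun B hB => hxy B (by simp [hB]))

/-- The points of `P` have distinct codes with respect to the list `l`. -/
def Sep (l : List (Set X)) (P : Finset X) : Prop :=
  ∀ x ∈ P, ∀ y ∈ P, (∀ B ∈ l, (x ∈ B ↔ y ∈ B)) → x = y

theorem indep_aux {B C : Set X} {x y x' y' : X} (h1 : x ∈ C) (h2 : y ∈ C) (h3 : x' ∉ C)
    (h4 : y' ∉ C) (hB : ¬ (x ∈ B ↔ y ∈ B)) (hB' : ¬ (x' ∈ B ↔ y' ∈ B)) : IndepPair C B := by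
  refine ⟨?_, ?_, ?_, ?_⟩
  · by_cases h : x ∈ B
    · exact ⟨x, h1, h⟩
    · exact ⟨y, h2, by tauto⟩
  · by_cases h : x ∈ B
    · exact ⟨y, h2, by tauto⟩
    · exact ⟨x, h1, h⟩
  · by_cases h : x' ∈ B
    · exact ⟨x', h, h3⟩
    · exact ⟨y', by tauto, h4⟩
  · by_cases h : x' ∈ B
    · exact ⟨y', h4, by simp only [mem_compl_iff]; tauto⟩
    · exact ⟨x', h3, h⟩

theorem indep_of_four {B C : Set X} {x y x' y' : X} (h1 : x ∈ C ↔ y ∈ C) (h2 : x' ∈ C ↔ y' ∈ C)
    (h3 : ¬ (x ∈ C ↔ x' ∈ C)) (hB : ¬ (x ∈ B ↔ y ∈ B)) (hB' : ¬ (x' ∈ B ↔ y' ∈ B)) :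
    IndepPair C B := by
  by_cases h : x ∈ C
  · have h' : x' ∉ C := fun h' => h3 ⟨fun _ => h', fun _ => h⟩
    exact indep_aux h (h1.1 h) h' (fun h'' => h' (h2.2 h'')) hB hB'
  · have h' : x' ∈ C := by
      by_contra h'
      exact h3 ⟨fun h'' => absurd h'' h, fun h'' => absurd h'' h'⟩
    exact indep_aux h' (h2.1 h') h (fun h'' => h (h1.2 h'')) hB' hB

/-- A family of `s` sets of independence dimension at most one has at most `s + 1` atoms. -/
theorem card_le_of_sep (l : List (Set X)) (hl : ∀ A ∈ l, ∀ B ∈ l, ¬ IndepPair A B)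
    (P : Finset X) (hP : Sep l P) : P.card ≤ l.length + 1 := by
  classical
  induction l generalizing P with
  | nil =>
    rw [List.length_nil, zero_add, Finset.card_le_one]
    intro a ha b hb
    exact hP a ha b hb (by simp)
  | cons B l ih =>
    have hl' : ∀ A ∈ l, ∀ B ∈ l, ¬ IndepPair A B := fun A hA C hC =>
      hl A (by simp [hA]) C (by simp [hC])
    by_cases hsep : Sep l P
    · exact (ih hl' P hsep).trans (by simp)
    · simp only [Sep, not_forall] at hsep
      obtain ⟨x, hx, y, hy, hxy, hne⟩ := hsep
      have hsep' : Sep l (P.erase y) := by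
        intro x' hx' y' hy' hxy'
        by_contra hne'
        have hx'' := Finset.mem_of_mem_erase hx'
        have hy'' := Finset.mem_of_mem_erase hy'
        have hB : ¬ (x ∈ B ↔ y ∈ B) := fun h => hne (hP x hx y hy (by
          intro C hC
          rcases List.mem_cons.1 hC with rfl | hC
          · exact h
          · exact hxy C hC))
        have hB' : ¬ (x' ∈ B ↔ y' ∈ B) := fun h => hne' (hP x' hx'' y' hy'' (by
          intro C hC
          rcases List.mem_cons.1 hC with rfl | hC
          · exact h
          · exact hxy' C hC))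
        by_cases hcode : ∀ C ∈ l, (x ∈ C ↔ x' ∈ C)
        · -- all four points have the same code
          have key : ∀ a ∈ P, ∀ b ∈ P, (∀ C ∈ l, (a ∈ C ↔ b ∈ C)) → (a ∈ B ↔ b ∈ B) → a = b :=
            fun a ha b hb hab hBab => hP a ha b hb (by
              intro C hC
              rcases List.mem_cons.1 hC with rfl | hC
              · exact hBab
              · exact hab C hC)
          have c1 : ∀ C ∈ l, (y ∈ C ↔ x' ∈ C) := fun C hC => (hxy C hC).symm.trans (hcode C hC)
          have c2 : ∀ C ∈ l, (y ∈ C ↔ y' ∈ C) := fun C hC => (c1 C hC).trans (hxy' C hC)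
          by_cases h1 : y ∈ B ↔ x' ∈ B
          · exact (Finset.ne_of_mem_erase hx') (key y hy x' hx'' c1 h1).symm
          · have h2 : y ∈ B ↔ y' ∈ B := by tauto
            exact (Finset.ne_of_mem_erase hy') (key y hy y' hy'' c2 h2).symm
        · simp only [not_forall] at hcode
          obtain ⟨C, hC, hcode⟩ := hcode
          have h1 := hxy C hC
          have h2 := hxy' C hC
          have hCB := hl C (by simp [hC]) B (by simp)
          apply hCB
          exact indep_of_four h1 h2 hcode hB hB'
      have h := ih hl' _ hsep'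
      rw [Finset.card_erase_of_mem hy] at h
      rw [List.length_cons]
      omega

/-- **Counting.** Let `E` be an equivalence relation with infinitely many classes, each of which is
a Boolean combination of at most `N` sets of a family `F` of independence dimension at most one.
Then finitely many sets of `F` have at most `N` atoms on some class. -/
theorem exists_class {F : Set (Set X)} (hF : ∀ A ∈ F, ∀ B ∈ F, ¬ IndepPair A B)
    {E : X → X → Prop} (hrefl : ∀ x, E x x) (hsymm : ∀ x y, E x y → E y x)
    (htrans : ∀ x y z, E x y → E y z → E x z) (hinf : ∀ P : Finset X, ∃ x, ∀ y ∈ P, ¬ E y x)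
    {N : ℕ} (hcl : ∀ c : X, ∃ l : List (Set X), l.length ≤ N ∧ (∀ B ∈ l, B ∈ F) ∧
      Respects l {x | E c x})
    (l : List (Set X)) (hl : ∀ B ∈ l, B ∈ F) :
    ∃ c : X, ∀ P : Finset X, (∀ x ∈ P, E c x) → Sep l P → P.card ≤ N := by
  classical
  by_contra hcon
  push Not at hcon
  choose P hPE hPsep hPcard using hcon
  choose L hLlen hLF hLres using hcl
  -- a large number of classes
  have hmany : ∀ m : ℕ, ∃ C : Finset X, C.card = m ∧
      ∀ x ∈ C, ∀ y ∈ C, x ≠ y → ¬ E x y := by
    intro m
    induction m with
    | zero => exact ⟨∅, by simp, by simp⟩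
    | succ m ih =>
      obtain ⟨C, hC, hCE⟩ := ih
      obtain ⟨x, hx⟩ := hinf C
      have hxC : x ∉ C := fun h => hx x h (hrefl x)
      refine ⟨insert x C, by rw [Finset.card_insert_of_notMem hxC, hC], ?_⟩
      intro a ha' b hb' hab hE
      rcases Finset.mem_insert.1 ha' with rfl | ha <;> rcases Finset.mem_insert.1 hb' with rfl | hb
      · exact hab rfl
      · exact hx b hb (hsymm _ _ hE)
      · exact hx a ha hE
      · exact hCE a ha b hb hab hE
  obtain ⟨C, hC, hCE⟩ := hmany (l.length + 2)
  let Q : Finset X := C.biUnion P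
  have hQcard : Q.card = ∑ c ∈ C, (P c).card := by
    apply Finset.card_biUnion
    intro a ha b hb hab
    rw [Function.onFun, Finset.disjoint_left]
    intro x hxa hxb
    exact hCE a ha b hb hab (htrans _ _ _ (hPE a x hxa) (hsymm _ _ (hPE b x hxb)))
  let LL : List (Set X) := l ++ C.toList.flatMap L
  have hLLF : ∀ B ∈ LL, B ∈ F := by
    intro B hB
    rcases List.mem_append.1 hB with h | h
    · exact hl B h
    · obtain ⟨c, -, hc⟩ := List.mem_flatMap.1 h
      exact hLF c B hc
  have hsep : Sep LL Q := by
    intro x hx y hy hxy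
    obtain ⟨a, ha, hxa⟩ := Finset.mem_biUnion.1 hx
    obtain ⟨b, hb, hyb⟩ := Finset.mem_biUnion.1 hy
    have hya : E a y := by
      have h := hLres a x y (fun B hB => hxy B (List.mem_append.2 (Or.inr
        (List.mem_flatMap.2 ⟨a, by simpa using ha, hB⟩))))
      exact h.1 (hPE a x hxa)
    have hab : a = b := by
      by_contra hne
      exact hCE a ha b hb hne (htrans _ _ _ hya (hsymm _ _ (hPE b y hyb)))
    subst hab
    exact hPsep a x hxa y hyb fun B hB => hxy B (List.mem_append.2 (Or.inl hB))
  have h1 := card_le_of_sep LL (fun A hA B hB => hF A (hLLF A hA) B (hLLF B hB)) Q hsep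
  have h2 : LL.length ≤ l.length + C.card * N := by
    rw [List.length_append, List.length_flatMap]
    have : (C.toList.map fun a => (L a).length).sum ≤
        (C.toList.map fun a => (L a).length).length • N := by
      apply List.sum_le_card_nsmul
      intro x hx
      obtain ⟨a, -, rfl⟩ := List.mem_map.1 hx
      exact hLlen a
    rw [List.length_map] at this
    rw [Finset.length_toList, smul_eq_mul] at this
    omega
  have h3 : C.card * (N + 1) ≤ ∑ c ∈ C, (P c).card := by
    rw [← smul_eq_mul]
    exact Finset.card_nsmul_le_sum _ _ _ fun c _ => hPcard c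
  rw [← hQcard] at h3
  rw [hC] at h2 h3
  nlinarith

/-- **Periodicity.** If colours on a class separated by few sets are shifted by `g`. -/
theorem exists_period {K : Type*} (g : X → X) (col : X → K) (hcol : ∀ x y, col x = col y →
    col (g x) = col (g y)) {x : X} {n N : ℕ} (hn : 0 < n) (hg : g^[n] x = x)
    (hN : ∀ P : Finset X, (∀ y ∈ P, ∃ i, y = g^[i] x) → (∀ y ∈ P, ∀ z ∈ P, col y = col z → y = z) →
      P.card ≤ N) :
    ∀ i, col (g^[N.factorial] (g^[i] x)) = col (g^[i] x) := by
  classical
  have hit : ∀ y z, col y = col z → ∀ i, col (g^[i] y) = col (g^[i] z) := by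
    intro y z h i
    induction i with
    | zero => exact h
    | succ i ih =>
      rw [Function.iterate_succ_apply', Function.iterate_succ_apply']
      exact hcol _ _ ih
  -- two of the first N + 1 colours coincide
  obtain ⟨a, b, hab, hbN, hcolab⟩ : ∃ a b : ℕ, a < b ∧ b ≤ N ∧
      col (g^[a] x) = col (g^[b] x) := by
    by_contra hcon
    push Not at hcon
    have hinj : ∀ a ∈ Finset.range (N + 1), ∀ b ∈ Finset.range (N + 1),
        col (g^[a] x) = col (g^[b] x) → a = b := by
      intro a ha b hb h
      rw [Finset.mem_range] at ha hb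
      rcases lt_trichotomy a b with h1 | h1 | h1
      · exact absurd h (hcon a b h1 (by omega))
      · exact h1
      · exact absurd h.symm (hcon b a h1 (by omega))
    have h1 := hN ((Finset.range (N + 1)).image fun i => g^[i] x) (by
      intro y hy
      obtain ⟨i, -, rfl⟩ := Finset.mem_image.1 hy
      exact ⟨i, rfl⟩) (by
      intro y hy z hz h
      obtain ⟨i, hi, rfl⟩ := Finset.mem_image.1 hy
      obtain ⟨j, hj, rfl⟩ := Finset.mem_image.1 hz
      rw [hinj i hi j hj h])
    rw [Finset.card_image_of_injOn, Finset.card_range] at h1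
    · omega
    · intro i hi j hj h
      exact hinj i hi j hj (congrArg col h)
  -- `b - a` is a period
  have hper : ∀ i, col (g^[b - a] (g^[i] x)) = col (g^[i] x) := by
    intro i
    have h1 := hit _ _ hcolab (n * a - a + i)
    have hna : a ≤ n * a := Nat.le_mul_of_pos_left a hn
    have e1 : g^[n * a - a + i] (g^[a] x) = g^[i] x := by
      rw [← Function.iterate_add_apply]
      have : n * a - a + i + a = i + n * a := by omega
      rw [this, Function.iterate_add_apply, Function.iterate_mul]
      congr 1
      exact Function.iterate_fixed hg a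
    have e2 : g^[n * a - a + i] (g^[b] x) = g^[b - a] (g^[i] x) := by
      rw [← Function.iterate_add_apply, ← Function.iterate_add_apply]
      have : n * a - a + i + b = (b - a + i) + n * a := by omega
      rw [this, Function.iterate_add_apply, Function.iterate_mul]
      congr 1
      exact Function.iterate_fixed hg a
    rw [e1, e2] at h1
    exact h1.symm
  have hdvd : b - a ∣ N.factorial := Nat.dvd_factorial (by omega) (by omega)
  obtain ⟨k, hk⟩ := hdvd
  intro i
  rw [hk]
  have : ∀ k i, col (g^[(b - a) * k] (g^[i] x)) = col (g^[i] x) := by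
    intro k
    induction k with
    | zero => intro i; rfl
    | succ k ih =>
      intro i
      rw [Nat.mul_succ, Nat.add_comm, Function.iterate_add_apply]
      rw [← Function.iterate_add_apply g ((b - a) * k) i]
      rw [hper]
      rw [Function.iterate_add_apply]
      exact ih i
  exact this k i

end Pool.Agent.Q209.CO
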