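import Mathlib

/-!
# Convexly orderable, VC-minimal theories and reducts: definitions
-/

set_option autoImplicit false

universe u v w u' v'

namespace Pool.Agent.Q209.CO

open FirstOrder FirstOrder.Language Set

/-- The subset `φ(M; b)` of `M` defined by the formula `φ(x; b)`, where `x` is a single variable and
`b` is a finite tuple of parameters from `M`. -/
def inst {L : FirstOrder.Language.{u, v}} (M : Type w) [L.Structure M] {n : ℕ}
    (φ : L.Formula (Unit ⊕ Fin n)) (b : Fin n → M) : Set M :=
  {x | φ.Realize (Sum.elim (fun _ => x) b)}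

/-- Two sets form an independent family: all four Boolean cells are nonempty. -/
def IndepPair {X : Type w} (A B : Set X) : Prop :=
  (A ∩ B).Nonempty ∧ (A \ B).Nonempty ∧ (B \ A).Nonempty ∧ (Aᶜ ∩ Bᶜ).Nonempty

/-- Finite Boolean combinations of members of a family of sets. -/
inductive BoolComb {X : Type w} (F : Set (Set X)) : Set X → Prop
  | basic {S : Set X} : S ∈ F → BoolComb F S
  | univ : BoolComb F Set.univ
  | compl {S : Set X} : BoolComb F S → BoolComb F Sᶜ
  | inter {S S' : Set X} : BoolComb F S → BoolComb F S' → BoolComb F (S ∩ S')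

/-- The family of all instances in `M` of the formulas of a set `Φ` of formulas `φ(x; y)`. -/
def instances {L : FirstOrder.Language.{u, v}}
    (Φ : Set (Σ n : ℕ, L.Formula (Unit ⊕ Fin n))) (M : Type w) [L.Structure M] : Set (Set M) :=
  {S | ∃ p ∈ Φ, ∃ b : Fin p.1 → M, S = inst M p.2 b}

/-- `T` is VC-minimal: there is a set `Φ` of formulas `φ(x; y)` such that, in all models `M` of `T`,
no two instances of `Φ` form an independent family, and every set definable by a formula `ψ(x; c)`
with parameters `c` from `M` is a Boolean combination of finitely many instances of `Φ`. -/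
def VCMinimal {L : FirstOrder.Language.{u, v}} (T : L.Theory) : Prop :=
  ∃ Φ : Set (Σ n : ℕ, L.Formula (Unit ⊕ Fin n)),
    ∀ (M : Type (max u v w)) [L.Structure M] [Nonempty M] [M ⊨ T],
      (∀ A ∈ instances Φ M, ∀ B ∈ instances Φ M, ¬ IndepPair A B) ∧
      ∀ (n : ℕ) (ψ : L.Formula (Unit ⊕ Fin n)) (c : Fin n → M),
        BoolComb (instances Φ M) (inst M ψ c)

/-- The structure `M` is convexly orderable: there is a linear order on `M` such that for every
formula `φ(x; y)` there is `K` such that all the sets `φ(M; b)` are unions of at most `K` convex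
sets. -/
def ConvexlyOrderable (L : FirstOrder.Language.{u, v}) (M : Type w) [L.Structure M] : Prop :=
  ∃ _ : LinearOrder M, ∀ (n : ℕ) (φ : L.Formula (Unit ⊕ Fin n)), ∃ K : ℕ, ∀ b : Fin n → M,
    ∃ C : Fin K → Set M, (∀ i, (C i).OrdConnected) ∧ inst M φ b = ⋃ i, C i

/-- The `L`-theory `T` is a reduct of the `L'`-theory `T'`: on some model `M` of `T'` there is an
`L`-structure which is a model of `T`, such that the graphs of all function symbols and all relation
symbols of `L` are definable without parameters in the `L'`-structure `M`. -/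
def IsReduct {L : FirstOrder.Language.{u, v}} {L' : FirstOrder.Language.{u', v'}} (T : L.Theory)
    (T' : L'.Theory) : Prop :=
  ∃ (M : Type (max u' v' w)) (_ : L'.Structure M) (_ : L.Structure M),
    Nonempty M ∧ M ⊨ T' ∧ M ⊨ T ∧
    (∀ (n : ℕ) (f : L.Functions n), (∅ : Set M).Definable L'
      {v : Option (Fin n) → M | Structure.funMap f (fun i => v (some i)) = v none}) ∧
    (∀ (n : ℕ) (R : L.Relations n), (∅ : Set M).Definable L'
      {v : Fin n → M | Structure.RelMap R v})

end Pool.Agent.Q209.CO
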