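import Pool.Agent.Q209.CO.Lang

/-!
# Automorphisms of the union of circles with finitely many rotations
-/

set_option autoImplicit false

universe w

namespace Pool.Agent.Q209.CO

open FirstOrder FirstOrder.Language Set

/-- `h` preserves the relations and commutes with the rotation by `1 / k`. -/
def Good (k : ℕ) (h : ℝ ≃ ℝ) : Prop :=
  (∀ x y, sameR (h x) (h y) ↔ sameR x y) ∧ (∀ x y, arcR (h x) (h y) ↔ arcR x y) ∧
    ∀ x, h (rotR k x) = rotR k (h x)

theorem rotR_mul_iterate {k l : ℕ} (hk : 0 < k) (hl : 0 < l) (x : ℝ) :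
    (rotR (k * l))^[l] x = rotR k x := by
  rw [rotR_iterate, rotR]
  have : (l : ℝ) / ((k * l : ℕ) : ℝ) = 1 / k := by
    have hk' : (k : ℝ) ≠ 0 := by positivity
    have hl' : (l : ℝ) ≠ 0 := by positivity
    push_cast
    field_simp
  rw [this]

theorem Good.of_mul {k l : ℕ} (hk : 0 < k) (hl : 0 < l) {h : ℝ ≃ ℝ} (hg : Good (k * l) h) :
    Good k h := by
  refine ⟨hg.1, hg.2.1, fun x => ?_⟩
  rw [← rotR_mul_iterate hk hl, ← rotR_mul_iterate hk hl]
  have : Function.Semiconj h (rotR (k * l)) (rotR (k * l)) := hg.2.2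
  exact this.iterate_right l x

theorem rotR_zero (x : ℝ) : rotR 0 x = x := by
  rw [rotR]
  simp

theorem inv_rot (j : ℕ) : ∃ k, 0 < k ∧ ∀ h : ℝ ≃ ℝ, Good k h → ∀ x, h (rotR j x) = rotR j (h x) := by
  rcases Nat.eq_zero_or_pos j with rfl | hj
  · exact ⟨1, one_pos, fun h _ x => by rw [rotR_zero, rotR_zero]⟩
  · exact ⟨j, hj, fun h hg x => hg.2.2 x⟩

theorem inv_term {α : Type*} (t : rotLang.Term α) :
    ∃ k, 0 < k ∧ ∀ h : ℝ ≃ ℝ, Good k h → ∀ v : α → ℝ, t.realize (h ∘ v) = h (t.realize v) := by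
  induction t with
  | var i => exact ⟨1, one_pos, fun h _ v => rfl⟩
  | @func n f ts ih =>
    obtain ⟨j⟩ := f
    obtain ⟨k, hk, hk'⟩ := ih 0
    obtain ⟨l, hl, hl'⟩ := inv_rot j
    refine ⟨k * l, Nat.mul_pos hk hl, fun h hg v => ?_⟩
    have h1 := hk' h (hg.of_mul hk hl) v
    have h2 := hl' h (Good.of_mul hl hk (by rwa [mul_comm])) ((ts 0).realize v)
    change rotR j ((ts 0).realize (h ∘ v)) = h (rotR j ((ts 0).realize v))
    rw [h1, h2]

theorem inv_formula {α : Type*} {n : ℕ} (φ : rotLang.BoundedFormula α n) :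
    ∃ k, 0 < k ∧ ∀ h : ℝ ≃ ℝ, Good k h → ∀ (v : α → ℝ) (xs : Fin n → ℝ),
      φ.Realize (h ∘ v) (h ∘ xs) ↔ φ.Realize v xs := by
  have helim : ∀ {α : Type _} {n : ℕ} (h : ℝ ≃ ℝ) (v : α → ℝ) (xs : Fin n → ℝ),
      Sum.elim (h ∘ v) (h ∘ xs) = h ∘ Sum.elim v xs := fun h v xs => (Sum.comp_elim _ _ _).symm
  induction φ with
  | falsum => exact ⟨1, one_pos, fun h _ v xs => Iff.rfl⟩
  | @equal n t₁ t₂ =>
    obtain ⟨k, hk, hk'⟩ := inv_term t₁
    obtain ⟨l, hl, hl'⟩ := inv_term t₂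
    refine ⟨k * l, Nat.mul_pos hk hl, fun h hg v xs => ?_⟩
    have h1 := hk' h (hg.of_mul hk hl)
    have h2 := hl' h (Good.of_mul hl hk (by rwa [mul_comm]))
    change t₁.realize _ = t₂.realize _ ↔ t₁.realize _ = t₂.realize _
    rw [helim, h1, h2]
    exact h.injective.eq_iff
  | @rel n m R ts =>
    cases R with
    | same =>
      obtain ⟨k, hk, hk'⟩ := inv_term (ts 0)
      obtain ⟨l, hl, hl'⟩ := inv_term (ts 1)
      refine ⟨k * l, Nat.mul_pos hk hl, fun h hg v xs => ?_⟩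
      have h1 := hk' h (hg.of_mul hk hl)
      have h2 := hl' h (Good.of_mul hl hk (by rwa [mul_comm]))
      change sameR ((ts 0).realize _) ((ts 1).realize _) ↔
        sameR ((ts 0).realize _) ((ts 1).realize _)
      rw [helim, h1, h2]
      exact hg.1 _ _
    | arc =>
      obtain ⟨k, hk, hk'⟩ := inv_term (ts 0)
      obtain ⟨l, hl, hl'⟩ := inv_term (ts 1)
      refine ⟨k * l, Nat.mul_pos hk hl, fun h hg v xs => ?_⟩
      have h1 := hk' h (hg.of_mul hk hl)
      have h2 := hl' h (Good.of_mul hl hk (by rwa [mul_comm]))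
      change arcR ((ts 0).realize _) ((ts 1).realize _) ↔
        arcR ((ts 0).realize _) ((ts 1).realize _)
      rw [helim, h1, h2]
      exact hg.2.1 _ _
  | @imp n f₁ f₂ ih₁ ih₂ =>
    obtain ⟨k, hk, hk'⟩ := ih₁
    obtain ⟨l, hl, hl'⟩ := ih₂
    refine ⟨k * l, Nat.mul_pos hk hl, fun h hg v xs => ?_⟩
    have h1 := hk' h (hg.of_mul hk hl) v xs
    have h2 := hl' h (Good.of_mul hl hk (by rwa [mul_comm])) v xs
    rw [BoundedFormula.realize_imp, BoundedFormula.realize_imp, h1, h2]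
  | @all n f ih =>
    obtain ⟨k, hk, hk'⟩ := ih
    refine ⟨k, hk, fun h hg v xs => ?_⟩
    rw [BoundedFormula.realize_all, BoundedFormula.realize_all]
    constructor
    · intro H a
      have := H (h a)
      rw [← Fin.comp_snoc, hk' h hg] at this
      exact this
    · intro H a
      have := H (h.symm a)
      rw [← hk' h hg, Fin.comp_snoc, Equiv.apply_symm_apply] at this
      exact this

/-! ### Maps of one circle -/

theorem arcR_iff (x y : ℝ) :
    arcR x y ↔ ⌊x⌋ = ⌊y⌋ ∧ ∃ z : ℤ, x < y + z ∧ y + z < x + 1 / 2 := by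
  rw [arcR]
  refine and_congr_right fun _ => ?_
  constructor
  · rintro ⟨h1, h2⟩
    refine ⟨-⌊y - x⌋, ?_, ?_⟩
    · rw [Int.fract] at h1
      push_cast
      linarith
    · rw [Int.fract] at h2
      push_cast
      linarith
  · rintro ⟨z, h1, h2⟩
    have h3 : Int.fract (y - x) = y + z - x := by
      rw [← Int.fract_add_intCast (y - x) z, Int.fract_eq_iff]
      exact ⟨by linarith, by linarith, 0, by push_cast; ring⟩
    rw [h3]
    constructor <;> linarith

/-- Act on the circle `[c, c + 1)` by the map induced by `σ`. -/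
noncomputable def clsFun (c : ℤ) (σ : ℝ → ℝ) (x : ℝ) : ℝ :=
  if ⌊x⌋ = c then c + Int.fract (σ x) else x

theorem floor_clsFun (c : ℤ) (σ : ℝ → ℝ) (x : ℝ) : ⌊clsFun c σ x⌋ = ⌊x⌋ := by
  rw [clsFun]
  split_ifs with h
  · rw [Int.floor_intCast_add, Int.floor_fract, add_zero, h]
  · rfl

theorem clsFun_inv {c : ℤ} {σ τ : ℝ → ℝ} (hτ : ∀ (x : ℝ) (z : ℤ), τ (x + z) = τ x + z)
    (hστ : ∀ x, τ (σ x) = x) (x : ℝ) : clsFun c τ (clsFun c σ x) = x := by
  by_cases h : ⌊x⌋ = c
  · rw [clsFun, if_pos (by rw [floor_clsFun, h]), clsFun, if_pos h]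
    have : (c : ℝ) + Int.fract (σ x) = σ x + ((c - ⌊σ x⌋ : ℤ) : ℝ) := by
      rw [Int.fract]
      push_cast
      ring
    rw [this, hτ, hστ, Int.fract_add_intCast, ← h]
    exact Int.floor_add_fract x
  · rw [clsFun, if_neg (by rwa [floor_clsFun]), clsFun, if_neg h]

/-- Act on one circle by an automorphism. -/
noncomputable def clsEquiv (c : ℤ) (σ : ℝ ≃o ℝ) (hσ : ∀ (x : ℝ) (z : ℤ), σ (x + z) = σ x + z) :
    ℝ ≃ ℝ where
  toFun := clsFun c σ
  invFun := clsFun c σ.symm
  left_inv := clsFun_inv (fun x z => by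
    apply σ.injective
    rw [σ.apply_symm_apply, hσ, σ.apply_symm_apply]) (fun x => σ.symm_apply_apply x)
  right_inv := clsFun_inv hσ (fun x => σ.apply_symm_apply x)

theorem clsEquiv_good {k : ℕ} (hk : 0 < k) (c : ℤ) (σ : ℝ ≃o ℝ)
    (hσ : ∀ (x : ℝ) (j : ℤ), σ (x + j / (2 * k : ℕ)) = σ x + j / (2 * k : ℕ)) :
    ∃ hσ' : ∀ (x : ℝ) (z : ℤ), σ (x + z) = σ x + z, Good k (clsEquiv c σ hσ') := by
  have hk' : (k : ℝ) ≠ 0 := by positivity
  have hσ1 : ∀ (x : ℝ) (z : ℤ), σ (x + z) = σ x + z := by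
    intro x z
    have h := hσ x (z * (2 * k : ℕ))
    have e : ((z * (2 * k : ℕ) : ℤ) : ℝ) / (2 * k : ℕ) = z := by
      push_cast
      field_simp
    rwa [e] at h
  have hσ2 : ∀ x : ℝ, σ (x + 1 / 2) = σ x + 1 / 2 := by
    intro x
    have h := hσ x k
    have e : ((k : ℤ) : ℝ) / (2 * k : ℕ) = 1 / 2 := by
      push_cast
      field_simp
    rwa [e] at h
  have hσ3 : ∀ x : ℝ, σ (x + 1 / k) = σ x + 1 / k := by
    intro x
    have h := hσ x 2
    have e : ((2 : ℤ) : ℝ) / (2 * k : ℕ) = 1 / k := by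
      push_cast
      field_simp
    rwa [e] at h
  refine ⟨hσ1, ?_, ?_, ?_⟩
  · intro x y
    change ⌊clsFun c σ x⌋ = ⌊clsFun c σ y⌋ ↔ ⌊x⌋ = ⌊y⌋
    rw [floor_clsFun, floor_clsFun]
  · intro x y
    change arcR (clsFun c σ x) (clsFun c σ y) ↔ arcR x y
    by_cases hxy : ⌊x⌋ = ⌊y⌋
    · by_cases hc : ⌊x⌋ = c
      · rw [arcR_iff, arcR_iff, floor_clsFun, floor_clsFun]
        refine and_congr_right fun _ => ?_
        rw [clsFun, clsFun, if_pos hc, if_pos (by rw [← hxy, hc])]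
        constructor
        · rintro ⟨z, h1, h2⟩
          refine ⟨z + ⌊σ x⌋ - ⌊σ y⌋, ?_, ?_⟩
          · rw [← σ.lt_iff_lt, hσ1]
            rw [Int.fract, Int.fract] at h1
            push_cast
            linarith
          · rw [← σ.lt_iff_lt, hσ1, hσ2]
            rw [Int.fract, Int.fract] at h2
            push_cast
            linarith
        · rintro ⟨z, h1, h2⟩
          refine ⟨z - ⌊σ x⌋ + ⌊σ y⌋, ?_, ?_⟩
          · rw [← σ.lt_iff_lt, hσ1] at h1
            rw [Int.fract, Int.fract]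
            push_cast
            linarith
          · rw [← σ.lt_iff_lt, hσ1, hσ2] at h2
            rw [Int.fract, Int.fract]
            push_cast
            linarith
      · rw [clsFun, clsFun, if_neg hc, if_neg (by rwa [← hxy])]
    · rw [arcR, arcR, floor_clsFun, floor_clsFun]
      exact iff_of_false (fun h => hxy h.1) (fun h => hxy h.1)
  · intro x
    change clsFun c σ (rotR k x) = rotR k (clsFun c σ x)
    by_cases hc : ⌊x⌋ = c
    · have e0 : rotR k (clsFun c σ x) = ⌊x⌋ + Int.fract (clsFun c σ x + 1 / k) := by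
        rw [rotR, floor_clsFun]
      rw [e0, clsFun, if_pos (by rw [floor_rotR, hc]), hc, clsFun, if_pos hc]
      congr 1
      have e1 : rotR k x = x + 1 / k + ((⌊x⌋ - ⌊x + 1 / k⌋ : ℤ) : ℝ) := by
        rw [rotR, Int.fract]
        push_cast
        ring
      rw [e1, hσ1, hσ3, Int.fract_add_intCast]
      have e2 : (c : ℝ) + Int.fract (σ x) + 1 / k = σ x + 1 / k + ((c - ⌊σ x⌋ : ℤ) : ℝ) := by
        rw [Int.fract]
        push_cast
        ring
      rw [e2, Int.fract_add_intCast]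
    · rw [clsFun, if_neg (by rwa [floor_rotR]), clsFun, if_neg hc]

/-! ### Permutations of the circles -/

/-- Permute the circles. -/
noncomputable def permEquiv (π : Equiv.Perm ℤ) : ℝ ≃ ℝ where
  toFun x := π ⌊x⌋ + Int.fract x
  invFun x := π.symm ⌊x⌋ + Int.fract x
  left_inv x := by
    simp only
    rw [Int.floor_intCast_add, Int.floor_fract, add_zero, Equiv.symm_apply_apply,
      Int.fract_intCast_add, Int.fract_fract, Int.floor_add_fract]
  right_inv x := by
    simp only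
    rw [Int.floor_intCast_add, Int.floor_fract, add_zero, Equiv.apply_symm_apply,
      Int.fract_intCast_add, Int.fract_fract, Int.floor_add_fract]

theorem permEquiv_apply (π : Equiv.Perm ℤ) (x : ℝ) :
    permEquiv π x = π ⌊x⌋ + Int.fract x := rfl

theorem floor_permEquiv (π : Equiv.Perm ℤ) (x : ℝ) : ⌊permEquiv π x⌋ = π ⌊x⌋ := by
  rw [permEquiv_apply, Int.floor_intCast_add, Int.floor_fract, add_zero]

theorem permEquiv_good (π : Equiv.Perm ℤ) (k : ℕ) : Good k (permEquiv π) := by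
  refine ⟨?_, ?_, ?_⟩
  · intro x y
    rw [sameR, floor_permEquiv, floor_permEquiv, π.injective.eq_iff, sameR]
  · intro x y
    rw [arcR, arcR, floor_permEquiv, floor_permEquiv, π.injective.eq_iff]
    refine and_congr_right fun h => ?_
    have : permEquiv π y - permEquiv π x = y - x := by
      rw [permEquiv_apply, permEquiv_apply, Int.fract, Int.fract, h]
      ring
    rw [this]
  · intro x
    have e0 : rotR k (permEquiv π x) = π ⌊x⌋ + Int.fract (permEquiv π x + 1 / k) := by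
      rw [rotR, floor_permEquiv]
    rw [e0, permEquiv_apply, floor_rotR, fract_rotR, permEquiv_apply]
    congr 1
    have : (π ⌊x⌋ : ℝ) + Int.fract x + 1 / k = x + 1 / k + ((π ⌊x⌋ - ⌊x⌋ : ℤ) : ℝ) := by
      rw [Int.fract]
      push_cast
      ring
    rw [this, Int.fract_add_intCast]

end Pool.Agent.Q209.CO
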