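import Pool.Agent.Q209.CO.Defs

/-!
# Infinitely many circles with all rational rotations
-/

set_option autoImplicit false

universe w

namespace Pool.Agent.Q209.CO

open FirstOrder FirstOrder.Language Set

/-- The function symbols: for every `k` a unary function symbol `rot k`. -/
inductive RotFun : ℕ → Type
  | rot : ℕ → RotFun 1

/-- The relation symbols: two binary relation symbols. -/
inductive RotRel : ℕ → Type
  | same : RotRel 2
  | arc : RotRel 2

/-- The language with unary function symbols `rot k` and binary relation symbols `same`, `arc`. -/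
def rotLang : FirstOrder.Language.{0, 0} := ⟨RotFun, RotRel⟩

/-- The function symbol `rot k`. -/
def rotSym (k : ℕ) : rotLang.Functions 1 := RotFun.rot k

/-- The relation symbol `same`. -/
def sameSym : rotLang.Relations 2 := RotRel.same

/-- The relation symbol `arc`. -/
def arcSym : rotLang.Relations 2 := RotRel.arc

/-- The rotation by `1 / k` of the circle `[⌊x⌋, ⌊x⌋ + 1)`. -/
noncomputable def rotR (k : ℕ) (x : ℝ) : ℝ := ⌊x⌋ + Int.fract (x + 1 / k)

/-- `x` and `y` are in the same circle. -/
def sameR (x y : ℝ) : Prop := ⌊x⌋ = ⌊y⌋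

/-- `x` and `y` are in the same circle and `y` is in the open half circle which starts at `x`. -/
def arcR (x y : ℝ) : Prop := ⌊x⌋ = ⌊y⌋ ∧ 0 < Int.fract (y - x) ∧ Int.fract (y - x) < 1 / 2

/-- The real line as the union of the circles `[n, n + 1)`. -/
noncomputable instance rotStr : rotLang.Structure ℝ where
  funMap := fun {_} f v => match f, v with
    | RotFun.rot k, v => rotR k (v 0)
  RelMap := fun {_} r v => match r, v with
    | RotRel.same, v => sameR (v 0) (v 1)
    | RotRel.arc, v => arcR (v 0) (v 1)

/-- The complete theory of infinitely many circles with all rational rotations. -/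
def rotTheory : rotLang.Theory := rotLang.completeTheory ℝ

theorem floor_rotR (k : ℕ) (x : ℝ) : ⌊rotR k x⌋ = ⌊x⌋ := by
  rw [rotR, Int.floor_intCast_add, Int.floor_fract, add_zero]

theorem fract_rotR (k : ℕ) (x : ℝ) : Int.fract (rotR k x) = Int.fract (x + 1 / k) := by
  rw [rotR, Int.fract_intCast_add, Int.fract_fract]

theorem rotR_iterate (k a : ℕ) (x : ℝ) : (rotR k)^[a] x = ⌊x⌋ + Int.fract (x + a / k) := by
  induction a with
  | zero => simp
  | succ a ih =>
    rw [Function.iterate_succ_apply', ih]
    rw [rotR, Int.floor_intCast_add, Int.floor_fract, add_zero]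
    congr 1
    have : (⌊x⌋ : ℝ) + Int.fract (x + a / k) + 1 / k =
        x + ((a + 1 : ℕ) : ℝ) / k + ((⌊x⌋ - ⌊x + a / k⌋ : ℤ) : ℝ) := by
      rw [Int.fract]
      push_cast
      ring
    rw [this, Int.fract_add_intCast]

section Interp

variable {N : Type w} [rotLang.Structure N]

/-- The rotations of a structure. -/
def gN (k : ℕ) (x : N) : N := Structure.funMap (rotSym k) ![x]

/-- The relation `same` of a structure. -/
def sameN (x y : N) : Prop := Structure.RelMap sameSym ![x, y]

/-- The relation `arc` of a structure. -/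
def arcN (x y : N) : Prop := Structure.RelMap arcSym ![x, y]

/-- The term `rot k (rot k (... t))`. -/
def itTerm {α : Type} (k a : ℕ) (t : rotLang.Term α) : rotLang.Term α :=
  (fun t => Functions.apply₁ (rotSym k) t)^[a] t

theorem realize_itTerm {α : Type} (k a : ℕ) (t : rotLang.Term α) (v : α → N) :
    (itTerm k a t).realize v = (gN k)^[a] (t.realize v) := by
  induction a with
  | zero => rfl
  | succ a ih =>
    rw [itTerm, Function.iterate_succ_apply', Function.iterate_succ_apply',
      Term.realize_functions_apply₁, ← ih]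
    rfl

/-- The formula `same s t`. -/
def sameF {α : Type} {n : ℕ} (s t : rotLang.Term (α ⊕ Fin n)) : rotLang.BoundedFormula α n :=
  Relations.boundedFormula₂ sameSym s t

/-- The formula `arc s t`. -/
def arcF {α : Type} {n : ℕ} (s t : rotLang.Term (α ⊕ Fin n)) : rotLang.BoundedFormula α n :=
  Relations.boundedFormula₂ arcSym s t

theorem realize_sameF {α : Type} {n : ℕ} (s t : rotLang.Term (α ⊕ Fin n)) (v : α → N)
    (xs : Fin n → N) : (sameF s t).Realize v xs ↔
      sameN (s.realize (Sum.elim v xs)) (t.realize (Sum.elim v xs)) :=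
  BoundedFormula.realize_rel₂

theorem realize_arcF {α : Type} {n : ℕ} (s t : rotLang.Term (α ⊕ Fin n)) (v : α → N)
    (xs : Fin n → N) : (arcF s t).Realize v xs ↔
      arcN (s.realize (Sum.elim v xs)) (t.realize (Sum.elim v xs)) :=
  BoundedFormula.realize_rel₂

end Interp

theorem gN_real (k : ℕ) (x : ℝ) : gN k x = rotR k x := rfl

theorem sameN_real (x y : ℝ) : sameN x y ↔ sameR x y := Iff.rfl

theorem arcN_real (x y : ℝ) : arcN x y ↔ arcR x y := Iff.rfl

section Models

variable (N : Type w) [rotLang.Structure N] [N ⊨ rotTheory]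

theorem transfer {k : ℕ} (φ : rotLang.BoundedFormula Empty k)
    (h : ∀ (v : Empty → ℝ) (xs : Fin k → ℝ), φ.Realize v xs) (v : Empty → N) :
    ∀ xs : Fin k → N, φ.Realize v xs := by
  have h1 : (φ.alls : rotLang.Sentence) ∈ rotTheory := by
    change ℝ ⊨ (φ.alls : rotLang.Sentence)
    rw [Sentence.Realize, BoundedFormula.realize_alls]
    exact h _
  have h2 : N ⊨ (φ.alls : rotLang.Sentence) := Theory.realize_sentence_of_mem rotTheory h1
  rw [Sentence.Realize, BoundedFormula.realize_alls] at h2
  intro xs
  exact Eq.mp (congrArg (fun w => φ.Realize w xs) (Subsingleton.elim _ v)) (h2 xs)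

variable {N}

theorem same_refl (x : N) : sameN x x := by
  have h := transfer N (sameF (&0) (&0) : rotLang.BoundedFormula Empty 1) (by
    intro v xs
    rw [realize_sameF]
    exact rfl) Empty.elim ![x]
  rw [realize_sameF] at h
  exact h

theorem same_symm {x y : N} (hxy : sameN x y) : sameN y x := by
  have h := transfer N ((sameF (&0) (&1)).imp (sameF (&1) (&0)) : rotLang.BoundedFormula Empty 2) (by
    intro v xs
    rw [BoundedFormula.realize_imp, realize_sameF, realize_sameF]
    exact fun h => Eq.symm h) Empty.elim ![x, y]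
  rw [BoundedFormula.realize_imp, realize_sameF, realize_sameF] at h
  exact h hxy

theorem same_trans {x y z : N} (hxy : sameN x y) (hyz : sameN y z) : sameN x z := by
  have h := transfer N ((sameF (&0) (&1)).imp ((sameF (&1) (&2)).imp (sameF (&0) (&2))) :
      rotLang.BoundedFormula Empty 3) (by
    intro v xs
    rw [BoundedFormula.realize_imp, BoundedFormula.realize_imp, realize_sameF, realize_sameF,
      realize_sameF]
    exact fun h h' => Eq.trans h h') Empty.elim ![x, y, z]
  rw [BoundedFormula.realize_imp, BoundedFormula.realize_imp, realize_sameF, realize_sameF,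
    realize_sameF] at h
  exact h hxy hyz

theorem same_gN (k : ℕ) (x : N) : sameN x (gN k x) := by
  have h := transfer N (sameF (&0) (itTerm k 1 (&0)) : rotLang.BoundedFormula Empty 1) (by
    intro v xs
    rw [realize_sameF, realize_itTerm]
    exact (floor_rotR k _).symm) Empty.elim ![x]
  rw [realize_sameF, realize_itTerm] at h
  exact h

theorem gN_mul_iterate {k l : ℕ} (hk : 0 < k) (hl : 0 < l) (x : N) :
    (gN (k * l))^[l] x = gN k x := by
  have h := transfer N (Term.bdEqual (itTerm (k * l) l (&0)) (itTerm k 1 (&0)) :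
      rotLang.BoundedFormula Empty 1) (by
    intro v xs
    rw [BoundedFormula.realize_bdEqual, realize_itTerm, realize_itTerm]
    change (rotR (k * l))^[l] (xs 0) = (rotR k)^[1] (xs 0)
    rw [rotR_iterate, rotR_iterate]
    have : (l : ℝ) / ((k * l : ℕ) : ℝ) = ((1 : ℕ) : ℝ) / k := by
      have hk' : (k : ℝ) ≠ 0 := by positivity
      have hl' : (l : ℝ) ≠ 0 := by positivity
      push_cast
      field_simp
    rw [this]) Empty.elim ![x]
  rw [BoundedFormula.realize_bdEqual, realize_itTerm, realize_itTerm] at h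
  exact h

theorem gN_iterate_self {k : ℕ} (hk : 0 < k) (x : N) : (gN k)^[k] x = x := by
  have h := transfer N (Term.bdEqual (itTerm k k (&0)) (&0) : rotLang.BoundedFormula Empty 1) (by
    intro v xs
    rw [BoundedFormula.realize_bdEqual, realize_itTerm]
    change (rotR k)^[k] (xs 0) = xs 0
    rw [rotR_iterate, div_self (by positivity), Int.fract_add_one, Int.floor_add_fract]) Empty.elim ![x]
  rw [BoundedFormula.realize_bdEqual, realize_itTerm] at h
  exact h

theorem arc_gN_iterate {p a : ℕ} (ha : a < p) (x : N) :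
    arcN x ((gN p)^[a] x) ↔ 0 < a ∧ 2 * a < p := by
  have hp : (0 : ℝ) < p := by
    have : 0 < p := by omega
    positivity
  have key : ∀ x : ℝ, arcR x ((rotR p)^[a] x) ↔ 0 < a ∧ 2 * a < p := by
    intro x
    rw [rotR_iterate]
    have h1 : ⌊x⌋ = ⌊(⌊x⌋ : ℝ) + Int.fract (x + a / p)⌋ := by
      rw [Int.floor_intCast_add, Int.floor_fract, add_zero]
    have h2 : Int.fract ((⌊x⌋ : ℝ) + Int.fract (x + a / p) - x) = a / p := by
      have : (⌊x⌋ : ℝ) + Int.fract (x + a / p) - x =
          (a : ℝ) / p + ((⌊x⌋ - ⌊x + a / p⌋ : ℤ) : ℝ) := by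
        rw [Int.fract]
        push_cast
        ring
      rw [this, Int.fract_add_intCast, Int.fract_eq_self]
      exact ⟨by positivity, by rw [div_lt_one hp]; exact_mod_cast ha⟩
    rw [arcR, h2, ← h1]
    simp only [true_and]
    rw [div_pos_iff_of_pos_right hp, div_lt_iff₀ hp]
    constructor
    · rintro ⟨h3, h4⟩
      refine ⟨by exact_mod_cast h3, ?_⟩
      have : (2 : ℝ) * a < p := by linarith
      exact_mod_cast this
    · rintro ⟨h3, h4⟩
      refine ⟨by exact_mod_cast h3, ?_⟩
      have : (2 : ℝ) * a < p := by exact_mod_cast h4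
      linarith
  by_cases hc : 0 < a ∧ 2 * a < p
  · have h := transfer N (arcF (&0) (itTerm p a (&0)) : rotLang.BoundedFormula Empty 1) (by
      intro v xs
      rw [realize_arcF, realize_itTerm]
      exact (key _).2 hc) Empty.elim ![x]
    rw [realize_arcF, realize_itTerm] at h
    exact iff_of_true h hc
  · have h := transfer N (∼(arcF (&0) (itTerm p a (&0))) : rotLang.BoundedFormula Empty 1) (by
      intro v xs
      rw [BoundedFormula.realize_not, realize_arcF, realize_itTerm]
      exact fun h => hc ((key _).1 h)) Empty.elim ![x]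
    rw [BoundedFormula.realize_not, realize_arcF, realize_itTerm] at h
    exact iff_of_false h hc

theorem exists_not_same (P : Finset N) : ∃ x : N, ∀ y ∈ P, ¬ sameN y x := by
  classical
  let k := P.card
  have h := transfer N ((BoundedFormula.iInf fun i : Fin k =>
      ∼(sameF (&(Fin.castSucc i)) (&(Fin.last k)))).ex : rotLang.BoundedFormula Empty k) (by
    intro v xs
    rw [BoundedFormula.realize_ex]
    obtain ⟨m, hm⟩ : ∃ m : ℤ, ∀ i, ⌊xs i⌋ ≠ m := by
      obtain ⟨m, hm⟩ := Infinite.exists_notMem_finset
        (Finset.univ.image fun i => ⌊xs i⌋ : Finset ℤ)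
      exact ⟨m, fun i h => hm (Finset.mem_image.2 ⟨i, Finset.mem_univ _, h⟩)⟩
    refine ⟨(m : ℝ), ?_⟩
    rw [BoundedFormula.realize_iInf]
    intro i
    rw [BoundedFormula.realize_not, realize_sameF]
    intro h
    apply hm i
    have e1 : (Fin.snoc xs (m : ℝ) : Fin (k + 1) → ℝ) (Fin.castSucc i) = xs i := by simp
    have e2 : (Fin.snoc xs (m : ℝ) : Fin (k + 1) → ℝ) (Fin.last k) = (m : ℝ) := by simp
    have h' : ⌊xs i⌋ = ⌊(m : ℝ)⌋ := by
      change sameR ((Fin.snoc xs (m : ℝ) : Fin (k + 1) → ℝ) (Fin.castSucc i))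
        ((Fin.snoc xs (m : ℝ) : Fin (k + 1) → ℝ) (Fin.last k)) at h
      rw [e1, e2] at h
      exact h
    rw [h', Int.floor_intCast]) Empty.elim (fun i => (P.equivFin.symm i : N))
  rw [BoundedFormula.realize_ex] at h
  obtain ⟨x, hx⟩ := h
  rw [BoundedFormula.realize_iInf] at hx
  refine ⟨x, fun y hy hxy => ?_⟩
  have h1 := hx (P.equivFin ⟨y, hy⟩)
  rw [BoundedFormula.realize_not, realize_sameF] at h1
  apply h1
  have e1 : (Fin.snoc (fun i => (P.equivFin.symm i : N)) x : Fin (k + 1) → N)
      (Fin.castSucc (P.equivFin ⟨y, hy⟩)) = y := by simp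
  have e2 : (Fin.snoc (fun i => (P.equivFin.symm i : N)) x : Fin (k + 1) → N) (Fin.last k) = x := by
    simp
  change sameN ((Fin.snoc (fun i => (P.equivFin.symm i : N)) x : Fin (k + 1) → N)
    (Fin.castSucc (P.equivFin ⟨y, hy⟩)))
    ((Fin.snoc (fun i => (P.equivFin.symm i : N)) x : Fin (k + 1) → N) (Fin.last k))
  rw [e1, e2]
  exact hxy

end Models

end Pool.Agent.Q209.CO
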