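import Pool.Agent.Q209.CO.Comb

/-!
# Uniformity from ultraproducts
-/

set_option autoImplicit false

universe u v w w'

namespace Pool.Agent.Q209.CO

open FirstOrder FirstOrder.Language Set Filter

section Los

variable {L : FirstOrder.Language.{u, v}} {α : Type w'} (𝒰 : Ultrafilter α) (M : Type w)
  [L.Structure M] [Nonempty M]

/-- The ultrapower. -/
abbrev UP : Type (max w' w) := (𝒰 : Filter α).Product (fun _ => M)

variable {M}

/-- The class of a sequence. -/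
def cls (x : α → M) : UP 𝒰 M :=
  @Quotient.mk' _ ((𝒰 : Filter α).productSetoid (fun _ => M)) x

theorem mem_inst_cls {k : ℕ} (φ : L.Formula (Unit ⊕ Fin k)) (x : α → M) (b : Fin k → α → M) :
    cls 𝒰 x ∈ inst (UP 𝒰 M) φ (fun i => cls 𝒰 (b i)) ↔
      ∀ᶠ a in (𝒰 : Filter α), x a ∈ inst M φ (fun i => b i a) := by
  have h := Ultraproduct.realize_formula_cast (M := fun _ : α => M) (u := 𝒰) φ
    (Sum.elim (fun _ => x) b)
  simp only [inst, mem_ofPred_eq]
  have e1 : (Sum.elim (fun _ => cls 𝒰 x) (fun i => cls 𝒰 (b i)) : Unit ⊕ Fin k → UP 𝒰 M) =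
      fun i => cls 𝒰 ((Sum.elim (fun _ => x) b : Unit ⊕ Fin k → α → M) i) := by
    funext i
    rcases i with i | i <;> rfl
  have e2 : ∀ a, (Sum.elim (fun _ => x a) (fun i => b i a) : Unit ⊕ Fin k → M) =
      fun i => (Sum.elim (fun _ => x) b : Unit ⊕ Fin k → α → M) i a := by
    intro a
    funext i
    rcases i with i | i <;> rfl
  rw [e1]
  simp only [e2]
  exact h

theorem cls_surj (x : UP 𝒰 M) : ∃ y : α → M, x = cls 𝒰 y := by
  obtain ⟨y, hy⟩ := Quotient.exists_rep x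
  exact ⟨y, hy.symm⟩

theorem up_model {T : L.Theory} [M ⊨ T] : UP 𝒰 M ⊨ T := by
  rw [Theory.model_iff]
  intro φ hφ
  rw [Ultraproduct.sentence_realize]
  exact Filter.Eventually.of_forall fun _ => Theory.realize_sentence_of_mem T hφ

end Los

theorem uniform {L : FirstOrder.Language.{u, v}} {T : L.Theory}
    {Φ : Set (Σ n : ℕ, L.Formula (Unit ⊕ Fin n))}
    (hΦ : ∀ (M : Type (max u v w)) [L.Structure M] [Nonempty M] [M ⊨ T],
      ∀ (n : ℕ) (ψ : L.Formula (Unit ⊕ Fin n)) (c : Fin n → M),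
        BoolComb (instances Φ M) (inst M ψ c))
    (M : Type (max u v w)) [L.Structure M] [Nonempty M] [M ⊨ T] {n : ℕ}
    (ψ : L.Formula (Unit ⊕ Fin n)) :
    ∃ (N : ℕ) (F : Finset Φ), ∀ c : Fin n → M, ∃ l : List (Set M), l.length ≤ N ∧
      (∀ B ∈ l, ∃ p ∈ F, ∃ b : Fin p.1.1 → M, B = inst M p.1.2 b) ∧ Respects l (inst M ψ c) := by
  classical
  by_contra hcon
  push Not at hcon
  choose c hc using hcon
  let ι := ℕ × Finset Φ
  let 𝒰 : Ultrafilter ι := Ultrafilter.of Filter.atTop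
  have h𝒰 : ∀ a₀ : ι, ∀ᶠ a in (𝒰 : Filter ι), a₀ ≤ a := fun a₀ =>
    Ultrafilter.of_le Filter.atTop (Filter.eventually_ge_atTop a₀)
  have := up_model (L := L) 𝒰 (M := M) (T := T)
  let cs : Fin n → UP 𝒰 M := fun i => cls 𝒰 (fun a : ι => c a.1 a.2 i)
  have hB := hΦ (UP 𝒰 M) n ψ cs
  obtain ⟨l, hl, hres⟩ := hB.respects
  have hl' : ∀ B : {B // B ∈ l}, ∃ p : Φ, ∃ b : Fin p.1.1 → ι → M,
      B.1 = inst (UP 𝒰 M) p.1.2 (fun i => cls 𝒰 (b i)) := by
    rintro ⟨B, hB⟩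
    obtain ⟨p, hp, b, hb⟩ := hl B hB
    choose b' hb' using fun i => cls_surj 𝒰 (b i)
    refine ⟨⟨p, hp⟩, b', hb.trans ?_⟩
    congr 1
    funext i
    exact hb' i
  choose p b hb using hl'
  let F₀ : Finset Φ := (l.attach.map p).toFinset
  let N₀ : ℕ := l.length
  let la : ι → List (Set M) := fun a => l.attach.map fun B => inst M (p B).1.2 (fun i => b B i a)
  have key : ∀ a : ι, ∃ x y : M, (N₀, F₀) ≤ a → (∀ B ∈ la a, (x ∈ B ↔ y ∈ B)) ∧
      ¬ (x ∈ inst M ψ (c a.1 a.2) ↔ y ∈ inst M ψ (c a.1 a.2)) := by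
    intro a
    by_cases ha : (N₀, F₀) ≤ a
    · have h := hc a.1 a.2 (la a) (by
        simp only [la, List.length_map, List.length_attach]
        exact ha.1) (by
        intro B hB
        obtain ⟨B', -, rfl⟩ := List.mem_map.1 hB
        refine ⟨p B', ha.2 ?_, _, rfl⟩
        rw [List.mem_toFinset]
        exact List.mem_map.2 ⟨B', List.mem_attach _ _, rfl⟩)
      simp only [Respects, not_forall] at h
      obtain ⟨x, y, h1, h2⟩ := h
      exact ⟨x, y, fun _ => ⟨h1, h2⟩⟩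
    · obtain ⟨x⟩ := ‹Nonempty M›
      exact ⟨x, x, fun h => absurd h ha⟩
  choose x y hxy using key
  have h1 : ∀ B ∈ l, (cls 𝒰 x ∈ B ↔ cls 𝒰 y ∈ B) := by
    intro B hB
    have e := hb ⟨B, hB⟩
    simp only at e
    rw [e, mem_inst_cls, mem_inst_cls]
    apply Filter.eventually_congr
    filter_upwards [h𝒰 (N₀, F₀)] with a ha
    exact (hxy a ha).1 _ (List.mem_map.2 ⟨⟨B, hB⟩, List.mem_attach _ _, rfl⟩)
  have h2 := hres _ _ h1
  simp only [cs] at h2
  rw [mem_inst_cls, mem_inst_cls] at h2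
  have h3 : ∀ᶠ a in (𝒰 : Filter ι), ¬ (x a ∈ inst M ψ (c a.1 a.2) ↔
      y a ∈ inst M ψ (c a.1 a.2)) := by
    filter_upwards [h𝒰 (N₀, F₀)] with a ha
    exact (hxy a ha).2
  by_cases h4 : ∀ᶠ a in (𝒰 : Filter ι), x a ∈ inst M ψ (fun i => c a.1 a.2 i)
  · have h5 := h2.1 h4
    obtain ⟨a, ha⟩ := (h3.and (h4.and h5)).exists
    exact ha.1 (iff_of_true ha.2.1 ha.2.2)
  · have h5 := fun h => h4 (h2.2 h)
    have h4' := Ultrafilter.eventually_not.2 h4
    have h5' := Ultrafilter.eventually_not.2 h5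
    obtain ⟨a, ha⟩ := (h3.and (h4'.and h5')).exists
    exact ha.1 (iff_of_false ha.2.1 ha.2.2)

end Pool.Agent.Q209.CO
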