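import Pool.Agent.Q209.CO.Piece
import Pool.Agent.Q209.CO.Unif

/-!
# All models of the theory are convexly orderable
-/

set_option autoImplicit false

universe w

namespace Pool.Agent.Q209.CO

open FirstOrder FirstOrder.Language Set

/-- A union of the level sets of a monotone map to `Fin K` is a union of `K` convex sets. -/
theorem exists_convex {N : Type w} [LinearOrder N] {K : ℕ} {S : Set N} {c : N → Fin K}
    (hc : Monotone c) (hS : ∀ x y, c x = c y → (x ∈ S ↔ y ∈ S)) :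
    ∃ C : Fin K → Set N, (∀ i, (C i).OrdConnected) ∧ S = ⋃ i, C i := by
  refine ⟨fun i => {x | c x = i ∧ x ∈ S}, fun i => ⟨?_⟩, ?_⟩
  · rintro x ⟨hx, hxS⟩ y ⟨hy, hyS⟩ z ⟨hxz, hzy⟩
    have h1 : c z = i := le_antisymm ((hc hzy).trans hy.le) (hx.ge.trans (hc hxz))
    exact ⟨h1, (hS x z (hx.trans h1.symm)).1 hxS⟩
  · ext x
    simp only [mem_iUnion, mem_ofPred_eq]
    exact ⟨fun h => ⟨c x, rfl, h⟩, fun ⟨_, _, h⟩ => h⟩

/-- The formula `x = y`. -/
def eqF : Σ n : ℕ, rotLang.Formula (Unit ⊕ Fin n) :=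
  ⟨1, Term.equal (Term.var (Sum.inl ())) (Term.var (Sum.inr 0))⟩

theorem mem_inst_eqF {N : Type w} [rotLang.Structure N] (x : N) (b : Fin 1 → N) :
    x ∈ inst N eqF.2 b ↔ x = b 0 := by
  simp only [inst, eqF, mem_ofPred_eq]
  rw [Formula.realize_equal]
  exact Iff.rfl

theorem real_of_model {N : Type w} [rotLang.Structure N] [N ⊨ rotTheory] (σ : rotLang.Sentence)
    (h : N ⊨ σ) : ℝ ⊨ σ := by
  by_contra hcon
  have h1 : (∼σ : rotLang.Sentence) ∈ rotTheory := by
    change ℝ ⊨ (∼σ : rotLang.Sentence)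
    rw [Sentence.realize_not]
    exact hcon
  have h2 : N ⊨ (∼σ : rotLang.Sentence) := Theory.realize_sentence_of_mem rotTheory h1
  rw [Sentence.realize_not] at h2
  exact h2 h

theorem realize_relabel_inst {M : Type*} [rotLang.Structure M] {P : Type*} {n : ℕ}
    (φ : rotLang.Formula (Unit ⊕ Fin n)) (x : P) (b : Fin n → P) (v : P → M) :
    (φ.relabel (Sum.elim (fun _ => x) b : Unit ⊕ Fin n → P)).Realize v ↔
      v x ∈ inst M φ (fun i => v (b i)) := by
  simp only [inst, mem_ofPred_eq]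
  rw [Formula.realize_relabel]
  have : (v ∘ (Sum.elim (fun _ => x) b : Unit ⊕ Fin n → P)) =
      Sum.elim (fun _ => v x) (fun i => v (b i)) := by
    funext i
    rcases i with i | i <;> rfl
  rw [this]

theorem realize_exists {M : Type*} [rotLang.Structure M] {P : Type*} [Finite P]
    (θ : rotLang.Formula P) :
    M ⊨ (Formula.iExs P (θ.relabel (Sum.inr : P → Empty ⊕ P)) : rotLang.Sentence) ↔
      ∃ v : P → M, θ.Realize v := by
  rw [Sentence.Realize, Formula.realize_iExs]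
  refine exists_congr fun v => ?_
  rw [Formula.realize_relabel]
  exact Iff.rfl

/-- Finite parts of a model are realised in the real line. -/
theorem exists_local {N : Type w} [rotLang.Structure N] [N ⊨ rotTheory] (P : Finset N)
    (Δ : Finset (Σ n : ℕ, rotLang.Formula (Unit ⊕ Fin n))) :
    ∃ τ : N → ℝ, ∀ q ∈ Δ, ∀ x ∈ P, ∀ b : Fin q.1 → N, (∀ i, b i ∈ P) →
      (x ∈ inst N q.2 b ↔ τ x ∈ inst ℝ q.2 (fun i => τ (b i))) := by
  classical
  let J : Type w := Σ q : Δ, P × (Fin q.1.1 → P)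
  let fm : J → rotLang.Formula P := fun j =>
    j.1.1.2.relabel (Sum.elim (fun _ => j.2.1) j.2.2 : Unit ⊕ Fin j.1.1.1 → P)
  let v₀ : P → N := fun x => x.1
  let g : J → rotLang.Formula P := fun j => if (fm j).Realize v₀ then fm j else ∼(fm j)
  have hg : ∀ j, (g j).Realize v₀ := by
    intro j
    simp only [g]
    split_ifs with h
    · exact h
    · rw [Formula.realize_not]
      exact h
  have hfin : Finite J := inferInstance
  let θ : rotLang.Formula P := BoundedFormula.iInf g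
  have hθ : θ.Realize v₀ := by
    rw [Formula.Realize, BoundedFormula.realize_iInf]
    exact hg
  obtain ⟨τ, hτ⟩ := (realize_exists θ).1 (real_of_model _ ((realize_exists θ).2 ⟨v₀, hθ⟩))
  rw [Formula.Realize, BoundedFormula.realize_iInf] at hτ
  refine ⟨fun x => if h : x ∈ P then τ ⟨x, h⟩ else 0, ?_⟩
  intro q hq x hx b hb
  let j : J := ⟨⟨q, hq⟩, ⟨x, hx⟩, fun i => ⟨b i, hb i⟩⟩
  have h2 : (fm j).Realize v₀ ↔ (fm j).Realize τ := by
    have h3 : (g j).Realize τ := hτ j
    simp only [g] at h3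
    split_ifs at h3 with h
    · exact iff_of_true h h3
    · rw [Formula.realize_not] at h3
      exact iff_of_false h h3
  simp only [fm] at h2
  rw [realize_relabel_inst, realize_relabel_inst] at h2
  simp only [j, v₀] at h2
  simp only [hx, hb, dif_pos]
  exact h2

theorem convexlyOrderable_model (N : Type w) [rotLang.Structure N] [N ⊨ rotTheory] :
    ConvexlyOrderable rotLang N := by
  classical
  let ι := Finset N × Finset (Σ n : ℕ, rotLang.Formula (Unit ⊕ Fin n))
  let 𝒰 : Ultrafilter ι := Ultrafilter.of Filter.atTop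
  have h𝒰 : ∀ a₀ : ι, ∀ᶠ a in (𝒰 : Filter ι), a₀ ≤ a := fun a₀ =>
    Ultrafilter.of_le Filter.atTop (Filter.eventually_ge_atTop a₀)
  choose τ hτ using fun a : ι => exists_local a.1 a.2
  -- the order
  let f : N → Filter.Germ (𝒰 : Filter ι) ℝ := fun x => ((fun a => τ a x : ι → ℝ) : Filter.Germ _ ℝ)
  have hf : Function.Injective f := by
    intro x y hxy
    have h1 : ∀ᶠ a in (𝒰 : Filter ι), τ a x = τ a y := Filter.Germ.coe_eq.1 hxy
    obtain ⟨a, ha, ha'⟩ := (h1.and (h𝒰 ({x, y}, {eqF}))).exists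
    have h2 := hτ a eqF (ha'.2 (by simp)) x (ha'.1 (by simp)) (fun _ => y)
      (fun _ => ha'.1 (by simp))
    exact (mem_inst_eqF x (fun _ => y)).1 (h2.2 ((mem_inst_eqF _ _).2 ha))
  let lin : LinearOrder N := LinearOrder.lift' f hf
  have hle : ∀ x y : N, x ≤ y → ∀ᶠ a in (𝒰 : Filter ι), τ a x ≤ τ a y := by
    intro x y hxy
    have : f x ≤ f y := hxy
    exact Filter.Germ.coe_le.1 this
  refine ⟨lin, fun n φ => ?_⟩
  obtain ⟨K, hK⟩ := real_pieces φ
  refine ⟨K, fun b => ?_⟩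
  choose c hcmono hc using fun a : ι => hK (fun i => τ a (b i))
  have hlim : ∀ x : N, ∃ j : Fin K, ∀ᶠ a in (𝒰 : Filter ι), c a (τ a x) = j := by
    intro x
    obtain ⟨j, hj⟩ := Ultrafilter.eq_pure_of_finite (𝒰.map fun a => c a (τ a x))
    refine ⟨j, ?_⟩
    have h1 : ({j} : Set (Fin K)) ∈ 𝒰.map fun a => c a (τ a x) := by
      rw [hj]
      exact Set.mem_singleton j
    exact h1
  choose d hd using hlim
  refine exists_convex (c := d) ?_ ?_
  · intro x y hxy
    obtain ⟨a, ha⟩ := ((hle x y hxy).and ((hd x).and (hd y))).exists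
    rw [← ha.2.1, ← ha.2.2]
    exact hcmono a ha.1
  · intro x y hxy
    obtain ⟨a, ha⟩ := (((h𝒰 ({x, y} ∪ Finset.univ.image b, {⟨n, φ⟩})).and
      ((hd x).and (hd y)))).exists
    have h1 := ha.1
    have hb : ∀ i, b i ∈ a.1 := fun i => h1.1 (by simp)
    have h2 := hτ a ⟨n, φ⟩ (h1.2 (by simp)) x (h1.1 (by simp)) b hb
    have h3 := hτ a ⟨n, φ⟩ (h1.2 (by simp)) y (h1.1 (by simp)) b hb
    rw [h2, h3]
    apply hc a
    rw [ha.2.1, ha.2.2, hxy]

end Pool.Agent.Q209.CO
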