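import Pool.Agent.Q209.CO.Prime
import Pool.Agent.Q209.CO.Unif
import Pool.Agent.Q209.CO.Lang

/-!
# The theory of circles with rational rotations is not a reduct of a VC-minimal theory
-/

set_option autoImplicit false

universe u v w

namespace Pool.Agent.Q209.CO

open FirstOrder FirstOrder.Language Set

section

variable {L' : FirstOrder.Language.{u, v}} {M : Type w} [L'.Structure M] [rotLang.Structure M]

theorem definableFun_gN (hfun : ∀ (n : ℕ) (f : rotLang.Functions n), (∅ : Set M).Definable L'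
      {v : Option (Fin n) → M | Structure.funMap f (fun i => v (some i)) = v none})
    {α : Type} (k : ℕ) {F : (α → M) → M} (hF : (∅ : Set M).DefinableFun L' F) :
    (∅ : Set M).DefinableFun L' (fun w => gN k (F w)) := by
  have h1 : (∅ : Set M).DefinableFun L' (fun v : Fin 1 → M => Structure.funMap (rotSym k) v) :=
    hfun 1 (rotSym k)
  have h2 := DefinableFun.comp (g := fun w : α → M => fun _ : Fin 1 => F w) (fun _ => hF) h1
  have e : (fun w : α → M => gN k (F w)) =
      fun w => Structure.funMap (rotSym k) (fun _ : Fin 1 => F w) := by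
    funext w
    rw [gN]
    congr 1
    funext i
    fin_cases i
    rfl
  rw [e]
  exact h2

theorem definableFun_gN_iterate (hfun : ∀ (n : ℕ) (f : rotLang.Functions n),
      (∅ : Set M).Definable L'
      {v : Option (Fin n) → M | Structure.funMap f (fun i => v (some i)) = v none})
    {α : Type} (k a : ℕ) {F : (α → M) → M} (hF : (∅ : Set M).DefinableFun L' F) :
    (∅ : Set M).DefinableFun L' (fun w => (gN k)^[a] (F w)) := by
  induction a with
  | zero => exact hF
  | succ a ih =>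
    simp only [Function.iterate_succ_apply']
    exact definableFun_gN hfun k ih

/-- The set of all `x` such that the trace of some instance of a formula in `F` on the orbit of
`x` under `gN p` is `Q`. -/
def WW {Φ : Set (Σ n : ℕ, L'.Formula (Unit ⊕ Fin n))} (F : Finset Φ) (p : ℕ)
    (Q : Set (ZMod p)) : Set M :=
  {x | ∃ q ∈ F, ∃ b : Fin q.1.1 → M,
    ∀ a : ZMod p, (gN p)^[a.val] x ∈ inst M q.1.2 b ↔ a ∈ Q}

theorem definable_WW (hfun : ∀ (n : ℕ) (f : rotLang.Functions n), (∅ : Set M).Definable L'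
      {v : Option (Fin n) → M | Structure.funMap f (fun i => v (some i)) = v none})
    {Φ : Set (Σ n : ℕ, L'.Formula (Unit ⊕ Fin n))} (F : Finset Φ) (p : ℕ) [NeZero p]
    (Q : Set (ZMod p)) (m i : ℕ) :
    (∅ : Set M).Definable L' {v : Fin 1 → M | (gN m)^[i] (v 0) ∈ WW F p Q} := by
  have h1 : ∀ q : Φ, (∅ : Set M).Definable L' {v : Fin 1 → M | ∃ b : Fin q.1.1 → M,
      ∀ a : ZMod p, (gN p)^[a.val] ((gN m)^[i] (v 0)) ∈ inst M q.1.2 b ↔ a ∈ Q} := by
    intro q
    have h2 : (∅ : Set M).Definable L' {w : Fin 1 ⊕ Fin q.1.1 → M | ∀ a : ZMod p,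
        (q.1.2.Realize (Sum.elim (fun _ => (gN p)^[a.val] ((gN m)^[i] (w (Sum.inl 0))))
          (fun j => w (Sum.inr j)))) ↔ a ∈ Q} := by
      have h3 : ∀ a : ZMod p, (∅ : Set M).Definable L' {w : Fin 1 ⊕ Fin q.1.1 → M |
          (q.1.2.Realize (Sum.elim (fun _ => (gN p)^[a.val] ((gN m)^[i] (w (Sum.inl 0))))
          (fun j => w (Sum.inr j)))) ↔ a ∈ Q} := by
        intro a
        have h4 : (∅ : Set M).Definable L' {w : Fin 1 ⊕ Fin q.1.1 → M |
            (q.1.2.Realize (Sum.elim (fun _ => (gN p)^[a.val] ((gN m)^[i] (w (Sum.inl 0))))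
            (fun j => w (Sum.inr j))))} := by
          have h5 : (∅ : Set M).Definable L' {u : Unit ⊕ Fin q.1.1 → M | q.1.2.Realize u} :=
            Set.empty_definable_iff.2 ⟨q.1.2, rfl⟩
          refine Definable.preimage_map (F := fun w : Fin 1 ⊕ Fin q.1.1 → M =>
            (Sum.elim (fun _ => (gN p)^[a.val] ((gN m)^[i] (w (Sum.inl 0))))
            (fun j => w (Sum.inr j)) : Unit ⊕ Fin q.1.1 → M)) ?_ h5
          intro j
          rcases j with j | j
          · simp only [Sum.elim_inl]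
            exact definableFun_gN_iterate hfun p a.val
              (definableFun_gN_iterate hfun m i (DefinableFun.proj L'))
          · simp only [Sum.elim_inr]
            exact DefinableFun.proj L'
        by_cases ha : a ∈ Q
        · simpa only [ha, iff_true] using h4
        · simp only [ha, iff_false]
          exact h4.compl
      have := definable_iInter_of_finite h3
      convert this using 1
      ext w
      simp only [mem_ofPred_eq, mem_iInter]
    have h6 := h2.exists_of_finite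
    exact h6
  have h7 := definable_biUnion_finset h1 F
  convert h7 using 1
  ext v
  simp only [WW, mem_ofPred_eq, mem_iUnion, exists_prop]

theorem exists_inst_of_definable {S : Set M}
    (hS : (∅ : Set M).Definable L' {v : Fin 1 → M | v 0 ∈ S}) :
    ∃ (ψ : L'.Formula (Unit ⊕ Fin 0)), ∀ c : Fin 0 → M, inst M ψ c = S := by
  obtain ⟨φ, hφ⟩ := Set.empty_definable_iff.1 hS
  refine ⟨φ.relabel (fun _ => Sum.inl ()), fun c => ?_⟩
  ext x
  simp only [inst, mem_ofPred_eq]
  rw [Formula.realize_relabel]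
  have h1 : (Sum.elim (fun _ => x) c ∘ fun _ => Sum.inl () : Fin 1 → M) = fun _ => x := by
    funext i
    rfl
  rw [h1]
  have h2 := Set.ext_iff.1 hφ (fun _ => x)
  exact h2.symm

theorem exists_inst_of_definable₂ {R : M → M → Prop}
    (hS : (∅ : Set M).Definable L' {v : Fin 2 → M | R (v 0) (v 1)}) :
    ∃ (ψ : L'.Formula (Unit ⊕ Fin 1)), ∀ c : Fin 1 → M, inst M ψ c = {x | R (c 0) x} := by
  obtain ⟨φ, hφ⟩ := Set.empty_definable_iff.1 hS
  refine ⟨φ.relabel (![Sum.inr 0, Sum.inl ()]), fun c => ?_⟩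
  ext x
  simp only [inst, mem_ofPred_eq]
  rw [Formula.realize_relabel]
  have h2 := Set.ext_iff.1 hφ (Sum.elim (fun _ => x) c ∘ ![Sum.inr 0, Sum.inl ()])
  exact h2.symm

theorem definable_rel₂ (R : rotLang.Relations 2)
    (hR : (∅ : Set M).Definable L' {v : Fin 2 → M | Structure.RelMap R v}) :
    (∅ : Set M).Definable L' {v : Fin 2 → M | Structure.RelMap R ![v 0, v 1]} := by
  have e : ∀ v : Fin 2 → M, ![v 0, v 1] = v := by
    intro v
    funext i
    fin_cases i <;> rfl
  simp only [e]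
  exact hR

end

theorem not_isReduct {L' : FirstOrder.Language.{u, v}} {T' : L'.Theory}
    (hVC : VCMinimal.{u, v, w} T') : ¬ IsReduct.{0, 0, w, u, v} rotTheory T' := by
  classical
  rintro ⟨M, sL', sL, hne, hT', hT, hfun, hrel⟩
  obtain ⟨Φ, hΦ⟩ := hVC
  have hF := (hΦ M).1
  -- the classes
  obtain ⟨ψE, hψE⟩ := exists_inst_of_definable₂ (R := sameN)
    (definable_rel₂ sameSym (hrel 2 sameSym))
  obtain ⟨N, FE, hE⟩ := uniform.{u, v, w} (T := T') (fun M _ _ _ => (hΦ M).2) M ψE
  -- the arcs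
  obtain ⟨ψA, hψA⟩ := exists_inst_of_definable₂ (R := arcN)
    (definable_rel₂ arcSym (hrel 2 arcSym))
  obtain ⟨NA, FA, hA⟩ := uniform.{u, v, w} (T := T') (fun M _ _ _ => (hΦ M).2) M ψA
  obtain ⟨p, hpN, hp⟩ := Nat.exists_infinite_primes (2 * NA + 3)
  haveI : Fact p.Prime := ⟨hp⟩
  haveI : NeZero p := ⟨hp.ne_zero⟩
  set K : ℕ := N.factorial with hK
  have hKpos : 0 < K := Nat.factorial_pos N
  set m : ℕ := p * K with hm
  have hmpos : 0 < m := Nat.mul_pos hp.pos hKpos
  have hgK : ∀ x : M, (gN m)^[K] x = gN p x := fun x => gN_mul_iterate hp.pos hKpos x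
  have hgm : ∀ x : M, (gN m)^[m] x = x := fun x => gN_iterate_self hmpos x
  have hgp : ∀ x : M, (gN p)^[p] x = x := fun x => gN_iterate_self hp.pos x
  -- finitely many definable sets
  have hlist : ∀ (i : ℕ) (Q : Set (ZMod p)), ∃ l : List (Set M), (∀ B ∈ l, B ∈ instances Φ M) ∧
      Respects l {x | (gN m)^[i] x ∈ WW FA p Q} := by
    intro i Q
    obtain ⟨ψ, hψ⟩ := exists_inst_of_definable (S := {x | (gN m)^[i] x ∈ WW FA p Q})
      (definable_WW hfun FA p Q m i)
    have h := ((hΦ M).2 0 ψ Fin.elim0).respects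
    rwa [hψ] at h
  choose ll hll hllres using hlist
  let l : List (Set M) := (List.range m).flatMap fun i =>
    (Finset.univ : Finset (Set (ZMod p))).toList.flatMap fun Q => ll i Q
  have hl : ∀ B ∈ l, B ∈ instances Φ M := by
    intro B hB
    obtain ⟨i, -, hB⟩ := List.mem_flatMap.1 hB
    obtain ⟨Q, -, hB⟩ := List.mem_flatMap.1 hB
    exact hll i Q B hB
  -- a good class
  obtain ⟨x, hx⟩ := exists_class hF (E := sameN) same_refl (fun _ _ => same_symm)
    (fun _ _ _ => same_trans) exists_not_same (N := N) (by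
      intro c
      obtain ⟨l, h1, h2, h3⟩ := hE (fun _ => c)
      refine ⟨l, h1, fun B hB => ?_, ?_⟩
      · obtain ⟨q, -, b, hb⟩ := h2 B hB
        exact ⟨q.1, q.2, b, hb⟩
      · rwa [hψE] at h3) l hl
  -- colours
  let col : M → ℕ → Set (ZMod p) → Prop := fun x i Q => (gN m)^[i] x ∈ WW FA p Q
  have hcol : ∀ x y, col x = col y → col (gN m x) = col (gN m y) := by
    intro x y h
    funext i Q
    have := congrFun (congrFun h (i + 1)) Q
    simp only [col] at this ⊢
    rwa [← Function.iterate_succ_apply, ← Function.iterate_succ_apply]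
  have hsame : ∀ i, sameN x ((gN m)^[i] x) := by
    intro i
    induction i with
    | zero => exact same_refl x
    | succ i ih =>
      rw [Function.iterate_succ_apply']
      exact same_trans ih (same_gN m _)
  have hper := exists_period (gN m) col hcol (x := x) (N := N) hmpos (hgm x) (by
    intro P hP hPcol
    apply hx P
    · intro y hy
      obtain ⟨i, rfl⟩ := hP y hy
      exact hsame i
    · intro y hy z hz hyz
      apply hPcol y hy z hz
      funext i Q
      have h1 : ∀ y : M, (gN m)^[i] y = (gN m)^[i % m] y := fun y =>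
        (Function.IsPeriodicPt.iterate_mod_apply (hgm y) i).symm
      simp only [col]
      rw [h1 y, h1 z]
      apply propext
      apply hllres (i % m) Q y z
      intro B hB
      apply hyz B
      exact List.mem_flatMap.2 ⟨i % m, List.mem_range.2 (Nat.mod_lt _ hmpos),
        List.mem_flatMap.2 ⟨Q, by simp, hB⟩⟩)
  have hWW : ∀ Q : Set (ZMod p), gN p x ∈ WW FA p Q ↔ x ∈ WW FA p Q := by
    intro Q
    have h := congrFun (congrFun (hper 0) 0) Q
    simp only [col, Function.iterate_zero, id_eq] at h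
    rw [← hK, hgK] at h
    exact Iff.of_eq h
  -- the traces
  have hmod : ∀ (a : ZMod p) (y : M), (gN p)^[(a + 1).val] y = (gN p)^[a.val] (gN p y) := by
    intro a y
    rw [← Function.iterate_succ_apply, ZMod.val_add]
    have h1 : (1 : ZMod p).val = 1 := ZMod.val_one p
    rw [h1]
    exact Function.IsPeriodicPt.iterate_mod_apply (hgp y) _
  let 𝒬 : Set (Set (ZMod p)) := {Q | x ∈ WW FA p Q}
  have hshift : ∀ Q ∈ 𝒬, {a | a + 1 ∈ Q} ∈ 𝒬 := by
    intro Q hQ
    have hQ' : x ∈ WW FA p Q := hQ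
    change x ∈ WW FA p {a | a + 1 ∈ Q}
    rw [← hWW]
    obtain ⟨q, hq, b, hb⟩ := hQ'
    refine ⟨q, hq, b, fun a => ?_⟩
    rw [← hmod]
    exact hb (a + 1)
  have hind : ∀ Q ∈ 𝒬, ∀ Q' ∈ 𝒬, ¬ IndepPair Q Q' := by
    rintro Q ⟨q, hq, b, hb⟩ Q' ⟨q', hq', b', hb'⟩ ⟨⟨a₁, h1, h1'⟩, ⟨a₂, h2, h2'⟩, ⟨a₃, h3, h3'⟩,
      ⟨a₄, h4, h4'⟩⟩
    apply hF (inst M q.1.2 b) ⟨q.1, q.2, b, rfl⟩ (inst M q'.1.2 b') ⟨q'.1, q'.2, b', rfl⟩
    refine ⟨⟨_, (hb a₁).2 h1, (hb' a₁).2 h1'⟩, ⟨_, (hb a₂).2 h2, fun h => h2' ((hb' a₂).1 h)⟩,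
      ⟨_, (hb' a₃).2 h3, fun h => h3' ((hb a₃).1 h)⟩,
      ⟨(gN p)^[a₄.val] x, fun h => h4 ((hb a₄).1 h), fun h => h4' ((hb' a₄).1 h)⟩⟩
  have hexc := exists_exceptional (by omega) 𝒬 hshift hind
  -- the arc at x
  obtain ⟨lA, hlA1, hlA2, hlA3⟩ := hA (fun _ => x)
  rw [hψA] at hlA3
  let tr : Set M → Set (ZMod p) := fun B => {a | (gN p)^[a.val] x ∈ B}
  have h1 := arc_bound (lA.map tr) (by
    intro Q hQ
    obtain ⟨B, hB, rfl⟩ := List.mem_map.1 hQ
    apply hexc
    obtain ⟨q, hq, b, rfl⟩ := hlA2 B hB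
    exact ⟨q, hq, b, fun a => Iff.rfl⟩) (by
    intro a b hab
    have h := hlA3 ((gN p)^[a.val] x) ((gN p)^[b.val] x) (fun B hB =>
      hab (tr B) (List.mem_map.2 ⟨B, hB, rfl⟩))
    simp only [mem_ofPred_eq] at h ⊢
    rw [arc_gN_iterate (ZMod.val_lt a), arc_gN_iterate (ZMod.val_lt b)] at h
    exact h)
  rw [List.length_map] at h1
  omega

end Pool.Agent.Q209.CO
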