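import Pool.Agent.Q209.CO.Inv

/-!
# Definable sets are unions of boundedly many convex sets
-/

set_option autoImplicit false

universe w

namespace Pool.Agent.Q209.CO

open FirstOrder FirstOrder.Language Set

/-- An automorphism of the line which moves `y` to `y'` and is the identity off `(lo, hi)`. -/
theorem exists_bump {lo y y' hi : ℝ} (h1 : lo < y) (h2 : y ≤ y') (h3 : y' < hi) :
    ∃ ρ : ℝ ≃o ℝ, (∀ t, t ≤ lo → ρ t = t) ∧ (∀ t, hi ≤ t → ρ t = t) ∧ ρ y = y' := by
  have hy : 0 < y - lo := by linarith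
  have hy' : 0 < y' - lo := by linarith
  have hw : 0 < hi - y := by linarith
  have hw' : 0 < hi - y' := by linarith
  set s : ℝ := (y' - lo) / (y - lo) with hs
  set c : ℝ := (hi - y') / (hi - y) with hc
  have hs0 : 0 < s := div_pos hy' hy
  have hc0 : 0 < c := div_pos hw' hw
  have hs1 : 1 ≤ s := by rw [hs, one_le_div hy]; linarith
  have hc1 : c ≤ 1 := by rw [hc, div_le_one hw]; linarith
  let f : ℝ → ℝ := fun t => max t (min (lo + (t - lo) * s) (hi - (hi - t) * c))
  have hmono : StrictMono f := by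
    intro a b hab
    have e1 : lo + (a - lo) * s < lo + (b - lo) * s := by nlinarith
    have e2 : hi - (hi - a) * c < hi - (hi - b) * c := by nlinarith
    exact max_lt_max hab (min_lt_min e1 e2)
  have hcont : Continuous f := by fun_prop
  have hlo : ∀ t, t ≤ lo → f t = t := by
    intro t ht
    apply max_eq_left
    apply (min_le_left _ _).trans
    nlinarith
  have hhi : ∀ t, hi ≤ t → f t = t := by
    intro t ht
    apply max_eq_left
    apply (min_le_right _ _).trans
    nlinarith
  have hsurj : Function.Surjective f := by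
    apply hcont.surjective
    · exact Filter.tendsto_atTop_mono (fun t => le_max_left _ _) Filter.tendsto_id
    · refine Filter.tendsto_id.congr' ?_
      filter_upwards [Filter.eventually_le_atBot lo] with t ht
      exact (hlo t ht).symm
  refine ⟨hmono.orderIsoOfSurjective f hsurj, hlo, hhi, ?_⟩
  change f y = y'
  have e1 : lo + (y - lo) * s = y' := by
    rw [hs, mul_div_cancel₀ _ hy.ne']
    ring
  have e2 : hi - (hi - y) * c = y' := by
    rw [hc, mul_div_cancel₀ _ hw.ne']
    ring
  simp only [f, e1, e2, min_self]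
  exact max_eq_right h2

/-- Extend periodically an automorphism of the line which fixes `0` and `1`. -/
theorem exists_periodic (ρ : ℝ ≃o ℝ) (h0 : ρ 0 = 0) (h1 : ρ 1 = 1) :
    ∃ P : ℝ ≃o ℝ, (∀ (x : ℝ) (z : ℤ), P (x + z) = P x + z) ∧ ∀ x, P x = ⌊x⌋ + ρ (Int.fract x) := by
  have hrange : ∀ (ρ : ℝ ≃o ℝ), ρ 0 = 0 → ρ 1 = 1 → ∀ x, 0 ≤ ρ (Int.fract x) ∧
      ρ (Int.fract x) < 1 := by
    intro ρ h0 h1 x
    constructor
    · rw [← h0]
      exact ρ.monotone (Int.fract_nonneg x)
    · rw [← h1]
      exact ρ.strictMono (Int.fract_lt_one x)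
  have hfl : ∀ (ρ : ℝ ≃o ℝ), ρ 0 = 0 → ρ 1 = 1 → ∀ x, ⌊(⌊x⌋ : ℝ) + ρ (Int.fract x)⌋ = ⌊x⌋ := by
    intro ρ h0 h1 x
    have := Int.floor_eq_zero_iff.2 (hrange ρ h0 h1 x)
    rw [Int.floor_intCast_add, this, add_zero]
  have hfr : ∀ (ρ : ℝ ≃o ℝ), ρ 0 = 0 → ρ 1 = 1 → ∀ x,
      Int.fract ((⌊x⌋ : ℝ) + ρ (Int.fract x)) = ρ (Int.fract x) := by
    intro ρ h0 h1 x
    rw [Int.fract_intCast_add, Int.fract_eq_self]
    exact hrange ρ h0 h1 x
  have h0' : ρ.symm 0 = 0 := by rw [OrderIso.symm_apply_eq, h0]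
  have h1' : ρ.symm 1 = 1 := by rw [OrderIso.symm_apply_eq, h1]
  have hmono : StrictMono (fun x : ℝ => (⌊x⌋ : ℝ) + ρ (Int.fract x)) := by
    intro a b hab
    simp only
    rcases (Int.floor_mono hab.le).lt_or_eq with h | h
    · have h2 : (⌊a⌋ : ℝ) + 1 ≤ ⌊b⌋ := by exact_mod_cast h
      have h3 := (hrange ρ h0 h1 a).2
      have h4 := (hrange ρ h0 h1 b).1
      linarith
    · have h2 : Int.fract a < Int.fract b := by
        rw [Int.fract, Int.fract, h]
        linarith
      have h3 := ρ.strictMono h2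
      rw [h]
      linarith
  refine ⟨StrictMono.orderIsoOfRightInverse _ hmono
    (fun x : ℝ => (⌊x⌋ : ℝ) + ρ.symm (Int.fract x)) ?_, ?_, fun x => rfl⟩
  · intro x
    simp only
    rw [hfl ρ.symm h0' h1', hfr ρ.symm h0' h1', ρ.apply_symm_apply, Int.floor_add_fract]
  · intro x z
    change (⌊x + z⌋ : ℝ) + ρ (Int.fract (x + z)) = ⌊x⌋ + ρ (Int.fract x) + z
    rw [Int.floor_add_intCast, Int.fract_add_intCast]
    push_cast
    ring

theorem exists_gap (S : Finset ℝ) {y y' : ℝ} (h : ∀ s ∈ S, s < y ∨ y' < s) :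
    ∃ lo < y, ∃ hi > y', ∀ s ∈ S, s ≤ lo ∨ hi ≤ s := by
  classical
  induction S using Finset.induction_on with
  | empty => exact ⟨y - 1, by linarith, y' + 1, by linarith, by simp⟩
  | insert s S _ ih =>
    obtain ⟨lo, hlo, hi, hhi, hS⟩ := ih fun t ht => h t (Finset.mem_insert_of_mem ht)
    rcases h s (Finset.mem_insert_self _ _) with h1 | h1
    · refine ⟨max lo s, max_lt hlo h1, hi, hhi, ?_⟩
      intro t ht
      rcases Finset.mem_insert.1 ht with rfl | ht
      · exact Or.inl (le_max_right _ _)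
      · rcases hS t ht with h2 | h2
        · exact Or.inl (h2.trans (le_max_left _ _))
        · exact Or.inr h2
    · refine ⟨lo, hlo, min hi s, lt_min hhi h1, ?_⟩
      intro t ht
      rcases Finset.mem_insert.1 ht with rfl | ht
      · exact Or.inr (min_le_right _ _)
      · rcases hS t ht with h2 | h2
        · exact Or.inl h2
        · exact Or.inr ((min_le_left _ _).trans h2)

/-- The cut points of a tuple of parameters. -/
noncomputable def cuts (k : ℕ) {n : ℕ} (b : Fin n → ℝ) : Finset ℝ :=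
  ((Finset.univ : Finset (Fin n × Fin (2 * k))).image fun q =>
    (⌊b q.1⌋ : ℝ) + Int.fract (b q.1 + q.2 / (2 * k : ℕ))) ∪
  ((Finset.univ : Finset (Fin n)).image fun i => (⌊b i⌋ : ℝ)) ∪
  ((Finset.univ : Finset (Fin n)).image fun i => (⌊b i⌋ : ℝ) + 1)

theorem card_cuts_le (k : ℕ) {n : ℕ} (b : Fin n → ℝ) : (cuts k b).card ≤ n * (2 * k) + n + n := by
  classical
  refine (Finset.card_union_le _ _).trans (add_le_add ((Finset.card_union_le _ _).trans
    (add_le_add ?_ ?_)) ?_)
  · refine Finset.card_image_le.trans ?_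
    rw [Finset.card_univ, Fintype.card_prod, Fintype.card_fin, Fintype.card_fin]
  · refine Finset.card_image_le.trans ?_
    rw [Finset.card_univ, Fintype.card_fin]
  · refine Finset.card_image_le.trans ?_
    rw [Finset.card_univ, Fintype.card_fin]

theorem mem_cuts_shift {k : ℕ} (hk : 0 < k) {n : ℕ} (b : Fin n → ℝ) (i : Fin n) (j : ℤ) {e : ℝ}
    (he : e = b i + j / (2 * k : ℕ)) (hfl : ⌊e⌋ = ⌊b i⌋) : e ∈ cuts k b := by
  classical
  have hk2 : (0 : ℤ) < (2 * k : ℕ) := by positivity
  have hk2' : ((2 * k : ℕ) : ℝ) ≠ 0 := by positivity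
  obtain ⟨q, hq⟩ : ∃ q : ℕ, (q : ℤ) = j % (2 * k : ℕ) :=
    ⟨(j % (2 * k : ℕ)).toNat, Int.toNat_of_nonneg (Int.emod_nonneg _ hk2.ne')⟩
  have hq' : q < 2 * k := by
    have := Int.emod_lt_of_pos j hk2
    rw [← hq] at this
    exact_mod_cast this
  rw [cuts, Finset.mem_union, Finset.mem_union]
  left
  left
  rw [Finset.mem_image]
  refine ⟨(i, ⟨q, hq'⟩), Finset.mem_univ _, ?_⟩
  simp only
  have h1 : e = b i + q / (2 * k : ℕ) + ((j / (2 * k : ℕ) : ℤ) : ℝ) := by
    rw [he]
    have h2 : (j : ℝ) = (q : ℝ) + (2 * k : ℕ) * ((j / (2 * k : ℕ) : ℤ) : ℝ) := by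
      have h3 := Int.emod_add_mul_ediv j (2 * k : ℕ)
      rw [← hq] at h3
      exact_mod_cast h3.symm
    rw [h2]
    field_simp
    ring
  have h4 : Int.fract e = Int.fract (b i + q / (2 * k : ℕ)) := by
    rw [h1, Int.fract_add_intCast]
  rw [← h4, ← hfl]
  exact Int.floor_add_fract e

/-- **Homogeneity.** Points which are not separated by a cut point are conjugate. -/
theorem exists_good {k : ℕ} (hk : 0 < k) {n : ℕ} (b : Fin n → ℝ) {x x' : ℝ} (hxx' : x < x')
    (hcut : ∀ e ∈ cuts k b, e < x ∨ x' < e) :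
    ∃ h : ℝ ≃ ℝ, Good k h ∧ (∀ i, h (b i) = b i) ∧ h x = x' := by
  classical
  by_cases hpar : ∃ i, ⌊b i⌋ = ⌊x⌋
  · -- a circle with parameters
    obtain ⟨i₀, hi₀⟩ := hpar
    have hflx' : ⌊x'⌋ = ⌊x⌋ := by
      have h1 : (⌊b i₀⌋ : ℝ) + 1 ∈ cuts k b := by
        rw [cuts, Finset.mem_union]
        exact Or.inr (Finset.mem_image.2 ⟨i₀, Finset.mem_univ _, rfl⟩)
      rcases hcut _ h1 with h2 | h2
      · rw [hi₀] at h2
        exact absurd (Int.lt_floor_add_one x) (not_lt.2 h2.le)
      · rw [hi₀] at h2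
        rw [Int.floor_eq_iff]
        exact ⟨(Int.floor_le x).trans hxx'.le, h2⟩
    set u : ℝ := b i₀ with hu
    set D : ℝ := ((2 * k : ℕ) : ℝ) with hD
    have hDpos : 0 < D := by positivity
    set s : ℝ := (x - u) * D with hs
    set s' : ℝ := (x' - u) * D with hs'
    have hss' : s < s' := by
      rw [hs, hs']
      exact mul_lt_mul_of_pos_right (by linarith) hDpos
    have hfree : ∀ (i : Fin n) (j : ℤ), ⌊b i⌋ = ⌊x⌋ → (b i - u) * D + j < s ∨
        s' < (b i - u) * D + j := by
      intro i j hi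
      by_contra hcon
      push Not at hcon
      obtain ⟨h1, h2⟩ := hcon
      set e : ℝ := b i + j / D with he
      have e1 : (b i - u) * D + j = (e - u) * D := by
        rw [he]
        field_simp
        ring
      rw [e1] at h1 h2
      have h3 : x ≤ e := by
        have := le_of_mul_le_mul_right (show (x - u) * D ≤ (e - u) * D from h1) hDpos
        linarith
      have h4 : e ≤ x' := by
        have := le_of_mul_le_mul_right (show (e - u) * D ≤ (x' - u) * D from h2) hDpos
        linarith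
      have h5 : ⌊e⌋ = ⌊b i⌋ := by
        rw [hi, Int.floor_eq_iff]
        refine ⟨(Int.floor_le x).trans h3, h4.trans_lt ?_⟩
        rw [← hflx']
        exact Int.lt_floor_add_one x'
      rcases hcut e (mem_cuts_shift hk b i j rfl h5) with h | h <;> linarith
    have hq : ⌊s'⌋ = ⌊s⌋ := by
      by_contra hne
      have hlt : ⌊s⌋ < ⌊s'⌋ := lt_of_le_of_ne (Int.floor_mono hss'.le) (Ne.symm hne)
      have := hfree i₀ ⌊s'⌋ hi₀
      rw [← hu, sub_self, zero_mul, zero_add] at this
      rcases this with h | h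
      · have : ⌊s'⌋ ≤ ⌊s⌋ := Int.le_floor.2 h.le
        omega
      · exact absurd (Int.floor_le s') (not_le.2 h)
    set y : ℝ := Int.fract s with hy
    set y' : ℝ := Int.fract s' with hy'
    have hyy' : y < y' := by
      rw [hy, hy', Int.fract, Int.fract, hq]
      linarith
    let S : Finset ℝ := insert 0 (insert 1 ((Finset.univ.filter fun i : Fin n => ⌊b i⌋ = ⌊x⌋).image
      fun i => Int.fract ((b i - u) * D)))
    have hkey : ∀ i : Fin n, ⌊b i⌋ = ⌊x⌋ →
        Int.fract ((b i - u) * D) < y ∨ y' < Int.fract ((b i - u) * D) := by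
      intro i hi
      rcases hfree i (⌊s⌋ - ⌊(b i - u) * D⌋) hi with h | h
      · left
        rw [hy, Int.fract, Int.fract]
        push_cast at h
        linarith
      · right
        rw [hy', Int.fract, Int.fract, hq]
        push_cast at h
        linarith
    have hS : ∀ t ∈ S, t < y ∨ y' < t := by
      intro t ht
      rcases Finset.mem_insert.1 ht with rfl | ht
      · have := hkey i₀ hi₀
        rwa [← hu, sub_self, zero_mul, Int.fract_zero] at this
      · rcases Finset.mem_insert.1 ht with rfl | ht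
        · exact Or.inr (Int.fract_lt_one _)
        · obtain ⟨i, hi, rfl⟩ := Finset.mem_image.1 ht
          exact hkey i (Finset.mem_filter.1 hi).2
    obtain ⟨lo, hlo, hi, hhi, hgap⟩ := exists_gap S hS
    have hy0 : 0 ≤ y := Int.fract_nonneg _
    have hy1 : y' < 1 := Int.fract_lt_one _
    have hlo0 : 0 ≤ lo := by
      rcases hgap 0 (Finset.mem_insert_self _ _) with h | h
      · exact h
      · linarith
    have hhi1 : hi ≤ 1 := by
      rcases hgap 1 (Finset.mem_insert_of_mem (Finset.mem_insert_self _ _)) with h | h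
      · linarith
      · exact h
    obtain ⟨ρ, hρlo, hρhi, hρy⟩ := exists_bump hlo hyy'.le hhi
    obtain ⟨P, hPz, hP⟩ := exists_periodic ρ (hρlo 0 hlo0) (hρhi 1 hhi1)
    -- the automorphism of the line
    let σf : ℝ → ℝ := fun t => u + P ((t - u) * D) / D
    have hσmono : StrictMono σf := by
      intro a c hac
      have h1 : (a - u) * D < (c - u) * D := mul_lt_mul_of_pos_right (by linarith) hDpos
      have h2 := div_lt_div_of_pos_right (P.strictMono h1) hDpos
      simp only [σf]
      linarith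
    let σ : ℝ ≃o ℝ := StrictMono.orderIsoOfRightInverse σf hσmono
      (fun t => u + P.symm ((t - u) * D) / D) (by
        intro t
        simp only [σf]
        rw [add_sub_cancel_left, div_mul_cancel₀ _ hDpos.ne', P.apply_symm_apply,
          mul_div_cancel_right₀ _ hDpos.ne']
        ring)
    have hσ : ∀ t, σ t = u + P ((t - u) * D) / D := fun t => rfl
    obtain ⟨hσ', hgood⟩ := clsEquiv_good hk ⌊x⌋ σ (by
      intro t j
      rw [hσ, hσ, ← hD]
      have : (t + j / D - u) * D = (t - u) * D + j := by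
        field_simp
        ring
      rw [this, hPz]
      field_simp
      ring)
    refine ⟨clsEquiv ⌊x⌋ σ hσ', hgood, ?_, ?_⟩
    · intro i
      change clsFun ⌊x⌋ σ (b i) = b i
      by_cases hbi : ⌊b i⌋ = ⌊x⌋
      · rw [clsFun, if_pos hbi]
        have h1 : σ (b i) = b i := by
          rw [hσ, hP]
          have h2 : ρ (Int.fract ((b i - u) * D)) = Int.fract ((b i - u) * D) := by
            rcases hgap (Int.fract ((b i - u) * D)) (Finset.mem_insert_of_mem
              (Finset.mem_insert_of_mem (Finset.mem_image.2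
                ⟨i, Finset.mem_filter.2 ⟨Finset.mem_univ _, hbi⟩, rfl⟩))) with h | h
            · exact hρlo _ h
            · exact hρhi _ h
          rw [h2, Int.floor_add_fract, mul_div_cancel_right₀ _ hDpos.ne']
          ring
        rw [h1, ← hbi, Int.floor_add_fract]
      · rw [clsFun, if_neg hbi]
    · change clsFun ⌊x⌋ σ x = x'
      rw [clsFun, if_pos rfl]
      have h1 : σ x = x' := by
        rw [hσ, hP, ← hs, ← hy, hρy, ← hq, hy', Int.floor_add_fract, hs',
          mul_div_cancel_right₀ _ hDpos.ne']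
        ring
      rw [h1, ← hflx', Int.floor_add_fract]
  · -- circles without parameters
    push Not at hpar
    have hpar' : ∀ i, ⌊b i⌋ ≠ ⌊x'⌋ := by
      intro i hi
      have h1 : (⌊b i⌋ : ℝ) ∈ cuts k b := by
        rw [cuts, Finset.mem_union, Finset.mem_union]
        exact Or.inl (Or.inr (Finset.mem_image.2 ⟨i, Finset.mem_univ _, rfl⟩))
      rcases hcut _ h1 with h2 | h2
      · rw [hi] at h2
        have h3 : ⌊x'⌋ ≤ ⌊x⌋ := Int.le_floor.2 h2.le
        have h4 : ⌊x⌋ = ⌊x'⌋ := le_antisymm (Int.floor_mono hxx'.le) h3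
        exact hpar i (by rw [hi, h4])
      · rw [hi] at h2
        exact absurd (Int.floor_le x') (not_le.2 h2)
    -- swap the circles
    let π : Equiv.Perm ℤ := Equiv.swap ⌊x⌋ ⌊x'⌋
    have hπ : ∀ i, π ⌊b i⌋ = ⌊b i⌋ := fun i => Equiv.swap_apply_of_ne_of_ne (hpar i) (hpar' i)
    have hπx : π ⌊x⌋ = ⌊x'⌋ := Equiv.swap_apply_left _ _
    let θ : ℝ := Int.fract x' - Int.fract x
    let σ : ℝ ≃o ℝ := OrderIso.addRight θ
    obtain ⟨hσ', hgood⟩ := clsEquiv_good hk ⌊x'⌋ σ (by
      intro t j
      simp only [σ, OrderIso.addRight_apply]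
      ring)
    have hgood' := permEquiv_good π k
    refine ⟨(permEquiv π).trans (clsEquiv ⌊x'⌋ σ hσ'), ?_, ?_, ?_⟩
    · refine ⟨fun a c => ?_, fun a c => ?_, fun a => ?_⟩
      · rw [Equiv.trans_apply, Equiv.trans_apply, hgood.1, hgood'.1]
      · rw [Equiv.trans_apply, Equiv.trans_apply, hgood.2.1, hgood'.2.1]
      · rw [Equiv.trans_apply, Equiv.trans_apply, hgood'.2.2, hgood.2.2]
    · intro i
      rw [Equiv.trans_apply, permEquiv_apply, hπ, Int.floor_add_fract]
      change clsFun ⌊x'⌋ σ (b i) = b i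
      rw [clsFun, if_neg (hpar' i)]
    · rw [Equiv.trans_apply]
      change clsFun ⌊x'⌋ σ (permEquiv π x) = x'
      rw [clsFun, if_pos (by rw [floor_permEquiv, hπx])]
      have h1 : Int.fract (σ (permEquiv π x)) = Int.fract x' := by
        rw [permEquiv_apply, hπx]
        simp only [σ, OrderIso.addRight_apply, θ]
        have : (⌊x'⌋ : ℝ) + Int.fract x + (Int.fract x' - Int.fract x) = x' := by
          rw [← sub_eq_zero]
          have := Int.floor_add_fract x'
          linarith
        rw [this]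
      rw [h1, Int.floor_add_fract]

/-- **Pieces.** For every formula `φ(x; y)` there is `K` such that every set `φ(ℝ; b)` is constant
on the level sets of a monotone map to `Fin K`. -/
theorem real_pieces {n : ℕ} (φ : rotLang.Formula (Unit ⊕ Fin n)) :
    ∃ K : ℕ, ∀ b : Fin n → ℝ, ∃ c : ℝ → Fin K, Monotone c ∧
      ∀ x y, c x = c y → (x ∈ inst ℝ φ b ↔ y ∈ inst ℝ φ b) := by
  classical
  obtain ⟨k, hk, hinv⟩ := inv_formula φ
  refine ⟨2 * (n * (2 * k) + n + n) + 1, fun b => ?_⟩
  let F := cuts k b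
  let c : ℝ → ℕ := fun x => (F.filter fun e => e < x).card + (F.filter fun e => e ≤ x).card
  have hc : ∀ x, c x < 2 * (n * (2 * k) + n + n) + 1 := by
    intro x
    have h1 : (F.filter fun e => e < x).card ≤ F.card := Finset.card_filter_le _ _
    have h2 : (F.filter fun e => e ≤ x).card ≤ F.card := Finset.card_filter_le _ _
    have h3 := card_cuts_le k b
    simp only [c]
    simp only [F] at h1 h2 ⊢
    omega
  have hsub1 : ∀ {x y : ℝ}, x ≤ y → (F.filter fun e => e < x) ⊆ F.filter fun e => e < y := by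
    intro x y hxy e he
    rw [Finset.mem_filter] at he ⊢
    exact ⟨he.1, he.2.trans_le hxy⟩
  have hsub2 : ∀ {x y : ℝ}, x ≤ y → (F.filter fun e => e ≤ x) ⊆ F.filter fun e => e ≤ y := by
    intro x y hxy e he
    rw [Finset.mem_filter] at he ⊢
    exact ⟨he.1, he.2.trans hxy⟩
  refine ⟨fun x => ⟨c x, hc x⟩, ?_, ?_⟩
  · intro x y hxy
    exact add_le_add (Finset.card_le_card (hsub1 hxy)) (Finset.card_le_card (hsub2 hxy))
  · have main : ∀ x y, x < y → c x = c y → (x ∈ inst ℝ φ b ↔ y ∈ inst ℝ φ b) := by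
      intro x y hxy hcxy
      have hcut : ∀ e ∈ F, e < x ∨ y < e := by
        intro e he
        by_contra hcon
        push Not at hcon
        obtain ⟨h1, h2⟩ := hcon
        apply absurd hcxy
        apply ne_of_lt
        rcases h1.lt_or_eq with h3 | h3
        · refine add_lt_add_of_le_of_lt (Finset.card_le_card (hsub1 hxy.le))
            (Finset.card_lt_card (Finset.ssubset_iff_subset_ne.2 ⟨hsub2 hxy.le, ?_⟩))
          intro h4
          have h5 : e ∈ F.filter fun e => e ≤ x := by
            rw [h4, Finset.mem_filter]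
            exact ⟨he, h2⟩
          exact absurd (Finset.mem_filter.1 h5).2 (not_le.2 h3)
        · refine add_lt_add_of_lt_of_le
            (Finset.card_lt_card (Finset.ssubset_iff_subset_ne.2 ⟨hsub1 hxy.le, ?_⟩))
            (Finset.card_le_card (hsub2 hxy.le))
          intro h4
          have h5 : e ∈ F.filter fun e => e < x := by
            rw [h4, Finset.mem_filter]
            exact ⟨he, by rw [← h3]; exact hxy⟩
          exact absurd (Finset.mem_filter.1 h5).2 (not_lt.2 h1)
      obtain ⟨h, hg, hb, hx⟩ := exists_good hk b hxy hcut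
      have h1 := fun xs : Fin 0 → ℝ => hinv h hg (Sum.elim (fun _ => x) b) xs
      have h2 : (h ∘ (Sum.elim (fun _ => x) b : Unit ⊕ Fin n → ℝ)) = Sum.elim (fun _ => y) b := by
        funext i
        rcases i with i | i
        · exact hx
        · exact hb i
      have h3 : ∀ xs : Fin 0 → ℝ, h ∘ xs = xs := fun xs => Subsingleton.elim _ _
      simp only [h2, h3] at h1
      exact (h1 _).symm
    intro x y hxy
    have hxy' : c x = c y := Fin.mk.inj_iff.1 hxy
    rcases lt_trichotomy x y with h | h | h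
    · exact main x y h hxy'
    · rw [h]
    · exact (main y x h hxy'.symm).symm

end Pool.Agent.Q209.CO
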