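import Pool.Agent.Q209.CO.Comb

/-!
# Families of subsets of `ℤ/p` invariant under translation
-/

set_option autoImplicit false

namespace Pool.Agent.Q209.CO

open Set

variable {p : ℕ} [hp : Fact p.Prime]

theorem IndepPair.compl {X : Type*} {A B : Set X} (h : IndepPair Aᶜ Bᶜ) : IndepPair A B := by
  obtain ⟨⟨a, ha, ha'⟩, ⟨b, hb, hb'⟩, ⟨c, hc, hc'⟩, ⟨d, hd, hd'⟩⟩ := h
  simp only [mem_compl_iff, not_not] at *
  exact ⟨⟨d, hd, hd'⟩, ⟨c, hc', hc⟩, ⟨b, hb', hb⟩, ⟨a, ha, ha'⟩⟩

theorem small_aux (𝒬 : Set (Set (ZMod p))) (hshift : ∀ Q ∈ 𝒬, {a | a + 1 ∈ Q} ∈ 𝒬)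
    (hind : ∀ Q ∈ 𝒬, ∀ Q' ∈ 𝒬, ¬ IndepPair Q Q') (Q : Finset (ZMod p)) (hQ : (Q : Set (ZMod p)) ∈ 𝒬)
    (hcard : 2 * Q.card < p) : Q.card ≤ 1 := by
  classical
  have hshift' : ∀ (n : ℕ) (Q : Set (ZMod p)), Q ∈ 𝒬 → {a | a + (n : ZMod p) ∈ Q} ∈ 𝒬 := by
    intro n
    induction n with
    | zero => intro Q hQ; simpa using hQ
    | succ n ih =>
      intro Q hQ
      have h := hshift _ (ih Q hQ)
      have e : {a : ZMod p | a + 1 ∈ {a | a + (n : ZMod p) ∈ Q}} =
          {a | a + ((n + 1 : ℕ) : ZMod p) ∈ Q} := by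
        ext a
        simp only [mem_ofPred_eq]
        rw [Nat.cast_succ, add_assoc, add_comm 1]
      rwa [e] at h
  by_contra hcon
  rw [not_le, Finset.one_lt_card] at hcon
  obtain ⟨u, hu, v, hv, huv⟩ := hcon
  let j : ZMod p := v - u
  have hj : j ≠ 0 := sub_ne_zero.2 (Ne.symm huv)
  let Q' : Finset (ZMod p) := Q.image (fun a => a - j)
  have hQ' : ((Q' : Finset (ZMod p)) : Set (ZMod p)) = {a | a + j ∈ (Q : Set (ZMod p))} := by
    ext a
    simp only [Q', Finset.coe_image, mem_image, Finset.mem_coe, mem_ofPred_eq]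
    constructor
    · rintro ⟨b, hb, rfl⟩
      simpa using hb
    · intro h
      exact ⟨a + j, h, by ring⟩
  have hQ'mem : ((Q' : Finset (ZMod p)) : Set (ZMod p)) ∈ 𝒬 := by
    rw [hQ']
    have := hshift' j.val Q hQ
    rwa [ZMod.natCast_zmod_val] at this
  have hcard' : Q'.card = Q.card :=
    Finset.card_image_of_injective _ (fun a b h => by simpa using h)
  have huQ' : u ∈ Q' := by
    rw [← Finset.mem_coe, hQ']
    simpa [j] using hv
  have huniv : ∀ (S : Finset (ZMod p)), (∀ a, a ∈ S) → S.card = p := by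
    intro S hS
    rw [Finset.eq_univ_iff_forall.2 hS, Finset.card_univ, ZMod.card]
  -- the two sets are different
  have hne : Q ≠ Q' := by
    intro h
    have hinv : ∀ a, a ∈ Q → a + j ∈ Q := by
      intro a ha
      rw [h, ← Finset.mem_coe, hQ'] at ha
      exact ha
    have hall : ∀ n : ℕ, u + (n : ZMod p) * j ∈ Q := by
      intro n
      induction n with
      | zero => simpa using hu
      | succ n ih =>
        have := hinv _ ih
        rw [Nat.cast_succ, add_mul, one_mul, ← add_assoc]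
        exact this
    have hfull : ∀ a, a ∈ Q := by
      intro a
      have := hall ((a - u) / j).val
      rw [ZMod.natCast_zmod_val, div_mul_cancel₀ _ hj] at this
      simpa using this
    have := huniv Q hfull
    omega
  apply hind _ hQ _ hQ'mem
  refine ⟨⟨u, hu, huQ'⟩, ?_, ?_, ?_⟩
  · by_contra h
    rw [Set.not_nonempty_iff_eq_empty, Set.sdiff_eq_empty] at h
    exact hne (Finset.eq_of_subset_of_card_le (by exact_mod_cast h) hcard'.le)
  · by_contra h
    rw [Set.not_nonempty_iff_eq_empty, Set.sdiff_eq_empty] at h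
    exact hne (Finset.eq_of_subset_of_card_le (by exact_mod_cast h) hcard'.ge).symm
  · by_contra h
    rw [Set.not_nonempty_iff_eq_empty, ← Set.compl_union, Set.compl_empty_iff] at h
    have h1 : (Q ∪ Q').card = p := huniv _ (fun a => by
      have : a ∈ ((Q : Set (ZMod p)) ∪ Q') := by rw [h]; trivial
      simpa using this)
    have h2 := Finset.card_union_le Q Q'
    omega

/-- In a translation invariant family of independence dimension at most one on `ℤ/p` every set is
constant off one point. -/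
theorem exists_exceptional (hp2 : p ≠ 2) (𝒬 : Set (Set (ZMod p)))
    (hshift : ∀ Q ∈ 𝒬, {a | a + 1 ∈ Q} ∈ 𝒬)
    (hind : ∀ Q ∈ 𝒬, ∀ Q' ∈ 𝒬, ¬ IndepPair Q Q') :
    ∀ Q ∈ 𝒬, ∃ a, ∀ b c, b ≠ a → c ≠ a → (b ∈ Q ↔ c ∈ Q) := by
  classical
  intro Q hQ
  let S : Finset (ZMod p) := Q.toFinset
  have hS : (S : Set (ZMod p)) = Q := by simp [S]
  have hodd : 2 * S.card ≠ p := by
    intro h
    have h2 : 2 ∣ p := ⟨_, h.symm⟩
    rcases (Nat.dvd_prime hp.out).1 h2 with h | h
    · omega
    · exact hp2 h.symm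
  rcases lt_or_gt_of_ne hodd with h | h
  · have h1 := small_aux 𝒬 hshift hind S (by rwa [hS]) h
    rcases Finset.card_le_one_iff_subset_singleton.1 h1 with ⟨a, ha⟩
    refine ⟨a, fun b c hb hc => ?_⟩
    have hb' : b ∉ Q := fun h => hb (by
      have := ha ((Finset.mem_coe.1 (by rw [hS]; exact h) : b ∈ S))
      simpa using this)
    have hc' : c ∉ Q := fun h => hc (by
      have := ha ((Finset.mem_coe.1 (by rw [hS]; exact h) : c ∈ S))
      simpa using this)
    exact iff_of_false hb' hc'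
  · let 𝒬' : Set (Set (ZMod p)) := {A | Aᶜ ∈ 𝒬}
    have h1 := small_aux 𝒬' (by
      intro A hA
      have := hshift _ hA
      exact this) (fun A hA B hB hAB => hind _ hA _ hB (by
        apply IndepPair.compl
        simpa using hAB)) Sᶜ (by
      change ((Sᶜ : Finset (ZMod p)) : Set (ZMod p))ᶜ ∈ 𝒬
      rw [Finset.coe_compl, compl_compl, hS]
      exact hQ) (by
      rw [Finset.card_compl, ZMod.card]
      have := hp.out.pos
      omega)
    rcases Finset.card_le_one_iff_subset_singleton.1 h1 with ⟨a, ha⟩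
    refine ⟨a, fun b c hb hc => ?_⟩
    have key : ∀ b, b ≠ a → b ∈ Q := by
      intro b hb
      by_contra hbQ
      apply hb
      have : b ∈ Sᶜ := by
        rw [Finset.mem_compl]
        intro h
        apply hbQ
        rw [← hS]
        exact h
      simpa using ha this
    exact iff_of_true (key b hb) (key c hc)

/-- The arc `{1, …, (p-1)/2}` is not a Boolean combination of few such sets. -/
theorem arc_bound (l : List (Set (ZMod p)))
    (hl : ∀ Q ∈ l, ∃ a, ∀ b c, b ≠ a → c ≠ a → (b ∈ Q ↔ c ∈ Q))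
    (hI : Respects l {a : ZMod p | 0 < a.val ∧ 2 * a.val < p}) : p ≤ 2 * l.length + 2 := by
  classical
  -- the finite set of exceptional points
  obtain ⟨Ex, hExcard, hEx⟩ : ∃ Ex : Finset (ZMod p), Ex.card ≤ l.length ∧
      ∀ Q ∈ l, ∀ b c, b ∉ Ex → c ∉ Ex → (b ∈ Q ↔ c ∈ Q) := by
    clear hI
    induction l with
    | nil => exact ⟨∅, by simp, by simp⟩
    | cons Q l ih =>
      obtain ⟨Ex, h1, h2⟩ := ih fun Q hQ => hl Q (by simp [hQ])
      obtain ⟨a, ha⟩ := hl Q (by simp)
      refine ⟨insert a Ex, (Finset.card_insert_le _ _).trans (by simpa using h1), ?_⟩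
      intro R hR b c hb hc
      rw [Finset.mem_insert, not_or] at hb hc
      rcases List.mem_cons.1 hR with rfl | hR
      · exact ha b c hb.1 hc.1
      · exact h2 R hR b c hb.2 hc.2
  by_contra hcon
  push Not at hcon
  have hinj : ∀ a b : ℕ, a < p → b < p → ((a : ZMod p) = b) → a = b := by
    intro a b ha hb h
    have := congrArg ZMod.val h
    rwa [ZMod.val_natCast_of_lt ha, ZMod.val_natCast_of_lt hb] at this
  have big : ∀ (f : ℕ → ℕ), (∀ i, i ≤ l.length → f i < p) →
      (∀ i j, i ≤ l.length → j ≤ l.length → f i = f j → i = j) →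
      ∃ i ≤ l.length, ((f i : ℕ) : ZMod p) ∉ Ex := by
    intro f hf hfinj
    by_contra h
    push Not at h
    have h1 : ((Finset.range (l.length + 1)).image fun i => ((f i : ℕ) : ZMod p)) ⊆ Ex := by
      intro x hx
      obtain ⟨i, hi, rfl⟩ := Finset.mem_image.1 hx
      exact h i (by rw [Finset.mem_range] at hi; omega)
    have h2 := Finset.card_le_card h1
    rw [Finset.card_image_of_injOn, Finset.card_range] at h2
    · omega
    · intro i hi j hj hij
      simp only [Finset.coe_range, mem_Iio] at hi hj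
      exact hfinj i j (by omega) (by omega)
        (hinj _ _ (hf i (by omega)) (hf j (by omega)) hij)
  obtain ⟨i, hi, hi'⟩ := big (fun i => i + 1) (fun i hi => by omega) (fun i j _ _ h => by omega)
  obtain ⟨k, hk, hk'⟩ := big (fun i => p - 1 - i) (fun i hi => by omega)
    (fun i j hi hj h => by omega)
  have h := hI _ _ (fun Q hQ => hEx Q hQ _ _ hi' hk')
  simp only [mem_ofPred_eq] at h
  rw [ZMod.val_natCast_of_lt (by omega), ZMod.val_natCast_of_lt (by omega)] at h
  omega

end Pool.Agent.Q209.CO
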